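import Pool.Agent.Helper33.TY.PosChk
import Pool.Agent.Helper16.TY.Seg

/-!
MP_8ee768_co, project TH-Y', stage T: the root positions by the network of helper16.

Item `(y, p, r', T)`: the network word `p` moves the family `fam 12 4 r` to `fam 12 4 r'` and the
point `y` to `11`.
-/

set_option autoImplicit false
set_option exponentiation.threshold 600

namespace Pool.Agent.Helper30.TY

open Finset
open Pool.Agent.Helper89.CV (OddCover ofMask)
open Pool.Agent.Helper97.CV Pool.Agent.Helper79.CV Pool.Agent.Helper33.CV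
open Pool.Agent.Helper33.TY
open Pool.Agent.Helper63.SIMD
open Pool.Agent.Helper16.TY

noncomputable section

theorem enc_point {y : Fin 13} (hy : y.val < 12) : enc 12 1 {{y}} = 2 ^ y.val := by
  refine Nat.eq_of_testBit_eq fun j => ?_
  rw [Nat.testBit_two_pow]
  by_cases hj : j < 12
  · rw [testBit_enc _ (by rw [length_L]; exact hj), getElem_L_one j hj,
      ofMask_two_pow (by omega), decide_eq_decide, mem_singleton, singleton_inj]
    exact ⟨fun h => by rw [← h], fun h => Fin.ext h.symm⟩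
  · rw [testBit_enc_ge _ (by rw [length_L]; exact not_lt.1 hj), decide_eq_false (by omega)]

/-- **one lane of the network** -/
theorem lane_item {N i P X r r' : ℕ} (hi : i < N) (hr : r < 2 ^ 495) (hr' : r' < 2 ^ 495)
    {y : Fin 13} (hy : y.val < 12) (hX : fld 512 X i = 2 ^ 495 * 2 ^ y.val + r)
    (h : fld 512 (runN (rep 512 N) net P X) i = 2 ^ 495 * 2 ^ 11 + r') :
    ∃ σ : Equiv.Perm (Fin 13), σ 12 = 12 ∧ σ y = 11 ∧ mapF σ (fam 12 4 r) = fam 12 4 r' := by
  have h495 : (2 : ℕ) ^ (12 : ℕ).choose 4 = 2 ^ 495 := by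
    have : (12 : ℕ).choose 4 = 495 := by decide
    rw [this]
  have hcode : fld 512 X i = code (fam 12 4 r) {{y}} := by
    rw [hX]
    unfold code
    rw [enc_point hy, enc_fam (by norm_num) (by rw [h495]; exact hr)]
  obtain ⟨σ, hσ, h1⟩ := net_sound (P := P) hi hcode
  rw [h] at h1
  have h2 := code_mod (mapF σ (fam 12 4 r)) (mapF σ {{y}})
  rw [← h1, Nat.mul_add_mod, Nat.mod_eq_of_lt hr'] at h2
  have hy12 : y ≠ 12 := by
    rintro rfl
    exact absurd hy (by decide)
  have hσy : (σ y).val < 12 := by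
    have h3 : σ y ≠ 12 := fun h4 => hy12 (σ.injective (h4.trans hσ.symm))
    have h4 : (σ y).val ≠ 12 := fun h5 => h3 (Fin.ext h5)
    omega
  have h3 : mapF σ {{y}} = {{σ y}} := by
    unfold mapF
    rw [image_singleton, mapS_singleton]
  have h4 : 2 ^ 495 * 2 ^ 11 + r' = 2 ^ 495 * 2 ^ (σ y).val + r' := by
    conv_lhs => rw [h1]
    unfold code
    rw [h3, enc_point hσy, ← h2]
  have h5 : (2 : ℕ) ^ 11 = 2 ^ (σ y).val :=
    Nat.eq_of_mul_eq_mul_left (Nat.two_pow_pos 495) (Nat.add_right_cancel h4)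
  have h6 : (σ y).val = 11 := (Nat.pow_right_injective (le_refl 2) h5).symm
  refine ⟨σ, hσ, Fin.ext h6, ?_⟩
  have h7 : ∀ s ∈ mapF σ (fam 12 4 r), Sub 12 4 s := by
    intro s hs
    rw [mem_mapF'] at hs
    have h8 := sub_of_mem_fam (by norm_num) hs
    refine ⟨?_, ?_⟩
    · rw [mk_lt_iff]
      intro a ha
      have h9 : σ.symm a ∈ mapS σ.symm s := by
        rw [mem_mapS]
        exact ha
      have h10 := mk_lt_iff.1 h8.1 _ h9
      have h11 : a ≠ 12 := by
        rintro rfl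
        have h12 : σ.symm 12 = 12 := by rw [Equiv.symm_apply_eq, hσ]
        rw [h12] at h10
        exact absurd h10 (by decide)
      have h12 : a.val ≠ 12 := fun h13 => h11 (Fin.ext h13)
      omega
    · rw [← card_mapS σ.symm s]
      exact h8.2
  rw [← fam_enc (by norm_num) h7, ← h2]

/-! ## the check of one class -/

/-- item: point, network word, target code, pair link -/
abbrev PItem := ℕ × ℕ × ℕ × ℕ

/-- conditions on one item -/
def itOK (c4 : ℕ) (t : PItem) : Bool :=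
  Nat.blt t.1 12 && (Nat.blt t.2.2.1 c4 && Nat.beq (Nat.shiftRight t.2.2.1 330) t.2.2.2)

/-- the network on all items -/
def itRun (r : ℕ) (its : List PItem) : Bool :=
  Nat.beq (runN (rep 512 its.length) net (packL 512 (its.map fun t => t.2.1))
    (packL 512 (its.map fun t => Nat.add (Nat.shiftLeft 1 (Nat.add 495 t.1)) r)))
    (packL 512 (its.map fun t => Nat.add (Nat.shiftLeft 1 506) t.2.2.1))

/-- all points of degree 19 are in the list -/
def degOK (r : ℕ) (its : List PItem) : Bool :=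
  (List.range 12).all fun y => its.any (fun t => Nat.beq t.1 y) || !(Nat.beq (degN r y) 19)

def posN (c4 r : ℕ) (its : List PItem) : Bool :=
  Nat.blt r c4 && (its.all (itOK c4) && (degOK r its && itRun r its))

theorem itRun_sound {r : ℕ} (hr : r < 2 ^ 495) {its : List PItem}
    (h1 : ∀ t ∈ its, t.1 < 12 ∧ t.2.2.1 < 2 ^ 495) (h : itRun r its = true) :
    ∀ t ∈ its, ∃ y : Fin 13, y.val = t.1 ∧ ∃ σ : Equiv.Perm (Fin 13), σ 12 = 12 ∧ σ y = 11 ∧
      mapF σ (fam 12 4 r) = fam 12 4 t.2.2.1 := by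
  intro t ht
  obtain ⟨i, hi, rfl⟩ := List.mem_iff_getElem.1 ht
  obtain ⟨hy, hr'⟩ := h1 _ ht
  unfold itRun at h
  rw [Nat.beq_eq] at h
  have hlt1 : ∀ a ∈ its.map fun t => Nat.add (Nat.shiftLeft 1 (Nat.add 495 t.1)) r,
      a < 2 ^ 512 := by
    intro a ha
    rw [List.mem_map] at ha
    obtain ⟨t, ht', rfl⟩ := ha
    have h2 := (h1 t ht').1
    show (1 <<< (495 + t.1)) + r < 2 ^ 512
    rw [Nat.shiftLeft_eq, Nat.one_mul]
    have h3 : (2 : ℕ) ^ (495 + t.1) ≤ 2 ^ 506 := Nat.pow_le_pow_right (by norm_num) (by omega)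
    have h4 : (2 : ℕ) ^ 506 + 2 ^ 495 ≤ 2 ^ 512 := by norm_num
    omega
  have hlt2 : ∀ a ∈ its.map fun t => Nat.add (Nat.shiftLeft 1 506) t.2.2.1, a < 2 ^ 512 := by
    intro a ha
    rw [List.mem_map] at ha
    obtain ⟨t, ht', rfl⟩ := ha
    have h2 := (h1 t ht').2
    show (1 <<< 506) + t.2.2.1 < 2 ^ 512
    rw [Nat.shiftLeft_eq, Nat.one_mul]
    have h4 : (2 : ℕ) ^ 506 + 2 ^ 495 ≤ 2 ^ 512 := by norm_num
    omega
  have hX := fld_packL hlt1 (i := i) (by rw [List.length_map]; exact hi)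
  have hR := fld_packL hlt2 (i := i) (by rw [List.length_map]; exact hi)
  rw [List.getElem_map] at hX hR
  rw [← h] at hR
  refine ⟨⟨its[i].1, by omega⟩, rfl, lane_item hi hr hr' hy (y := ⟨its[i].1, by omega⟩)
    (P := packL 512 (its.map fun t => t.2.1))
    (X := packL 512 (its.map fun t => Nat.add (Nat.shiftLeft 1 (Nat.add 495 t.1)) r)) ?_ ?_⟩
  · rw [hX]
    show (1 <<< (495 + its[i].1)) + r = _
    rw [Nat.shiftLeft_eq, Nat.one_mul, pow_add]
  · rw [hR]
    show (1 <<< 506) + its[i].2.2.1 = _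
    rw [Nat.shiftLeft_eq, Nat.one_mul, ← pow_add]

/-- **the positions of one class** -/
theorem posN_sound {c4 r : ℕ} (h4 : c4 = 2 ^ 495) {its : List PItem}
    (h : posN c4 r its = true) : PosOK r (its.map fun t => (t.2.2.1, t.2.2.2)) := by
  unfold posN at h
  rw [Bool.and_eq_true, Bool.and_eq_true, Bool.and_eq_true, Nat.blt_eq, List.all_eq_true] at h
  obtain ⟨hr, h1, h2, h3⟩ := h
  rw [h4] at hr
  have h5 : ∀ t ∈ its, t.1 < 12 ∧ t.2.2.1 < 2 ^ 495 ∧ t.2.2.1 >>> 330 = t.2.2.2 := by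
    intro t ht
    have h6 := h1 t ht
    unfold itOK at h6
    rw [Bool.and_eq_true, Bool.and_eq_true, Nat.blt_eq, Nat.blt_eq, Nat.beq_eq, h4] at h6
    exact h6
  intro y hy hc
  have hy12 : y.val < 12 := by
    have h6 : y.val ≠ 12 := fun h7 => hy (Fin.ext h7)
    omega
  rw [card_link_fam hr] at hc
  unfold degOK at h2
  rw [List.all_eq_true] at h2
  have h6 := h2 y.val (List.mem_range.2 hy12)
  rw [Bool.or_eq_true, List.any_eq_true, Bool.not_eq_true'] at h6
  rcases h6 with ⟨t, ht, h7⟩ | h7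
  · rw [Nat.beq_eq] at h7
    obtain ⟨y', hy', σ, h8, h9, h10⟩ :=
      itRun_sound hr (fun t ht => ⟨(h5 t ht).1, (h5 t ht).2.1⟩) h3 t ht
    have h11 : y' = y := Fin.ext (hy'.trans h7)
    rw [h11] at h9
    refine ⟨σ, h8, h9, _, List.mem_map_of_mem ht, h10, ?_⟩
    show link (fam 12 4 t.2.2.1) 11 = fam 11 3 t.2.2.2
    rw [← (h5 t ht).2.2]
    exact link_fam_last 11 3 _ (h5 t ht).2.1
  · rw [hc] at h7
    exact absurd h7 (by decide)

end

end Pool.Agent.Helper30.TY
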