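import Pool.Agent.Helper4.CV.Stages

/-!
MP_8ee768_co, project TH-Y': choice of the smallest points. `key` is any function into a linear
order which refines `MM` (smaller `MM` gives a smaller key), e.g. the pair (MM, class number).
-/

set_option autoImplicit false

namespace Pool.Agent.Helper30.TY

open Finset
open Pool.Agent.Helper89.CV (OddCover)
open Pool.Agent.Helper97.CV
open Pool.Agent.Helper82.TY (Best)

theorem two_le {i : Fin 13} (h0 : i ≠ 0) (h1 : i ≠ 1) : (2 : Fin 13) ≤ i := by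
  revert i
  decide

section key

variable {α : Type*} [LinearOrder α]

/-- a numbering of the points with increasing keys -/
theorem exists_sort (key : Fin 13 → α) :
    ∃ σ : Equiv.Perm (Fin 13), ∀ i j, i ≤ j → key (σ i) ≤ key (σ j) :=
  ⟨Tuple.sort key, fun _ _ h => Tuple.monotone_sort key h⟩

/-- `key` refines `f` -/
def Refines (key : Fin 13 → α) (f : Fin 13 → ℕ) : Prop := ∀ u v, f u < f v → key u < key v

theorem Refines.le {key : Fin 13 → α} {f : Fin 13 → ℕ} (h : Refines key f) {u v : Fin 13}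
    (huv : key u ≤ key v) : f u ≤ f v := by
  by_contra hc
  exact absurd (h v u (by omega)) (not_lt.2 huv)

theorem refines_self (f : Fin 13 → ℕ) : Refines f f := fun _ _ h => h

theorem three_smallest_key {key : Fin 13 → α} {f : Fin 13 → ℕ} (hk : Refines key f) {c : ℕ}
    (h : 3 ≤ (univ.filter fun z => f z ≤ c).card) :
    ∃ x y z : Fin 13, x ≠ y ∧ x ≠ z ∧ y ≠ z ∧ key x ≤ key y ∧ key y ≤ key z ∧ f x ≤ f y ∧
      f y ≤ f z ∧ f z ≤ c ∧ ∀ u, u ≠ x → u ≠ y → u ≠ z → key z ≤ key u ∧ f z ≤ f u := by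
  obtain ⟨σ, hσ⟩ := exists_sort key
  have hz : f (σ 2) ≤ c := by
    by_contra hc
    have h1 : univ.filter (fun z => f z ≤ c) ⊆ {σ 0, σ 1} := by
      intro u hu
      have hu' := (mem_filter.1 hu).2
      obtain ⟨i, rfl⟩ := σ.surjective u
      by_contra hn
      simp only [mem_insert, mem_singleton, EmbeddingLike.apply_eq_iff_eq, not_or] at hn
      have h2 : (2 : Fin 13) ≤ i := by
        exact two_le hn.1 hn.2
      have h5 := hk.le (hσ 2 i h2)
      omega
    have h2 := (card_le_card h1).trans (card_le_two)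
    omega
  refine ⟨σ 0, σ 1, σ 2, ?_, ?_, ?_, hσ _ _ (by decide), hσ _ _ (by decide),
    hk.le (hσ _ _ (by decide)), hk.le (hσ _ _ (by decide)), hz, ?_⟩
  · exact σ.injective.ne (by decide)
  · exact σ.injective.ne (by decide)
  · exact σ.injective.ne (by decide)
  · intro u h0 h1 h2
    obtain ⟨i, rfl⟩ := σ.surjective u
    have h3 : (2 : Fin 13) ≤ i := by
      exact two_le (fun h => h0 (congrArg σ h)) (fun h => h1 (congrArg σ h))
    exact ⟨hσ _ _ h3, hk.le (hσ _ _ h3)⟩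

/-- a point of smallest key among the points outside `S` -/
theorem min_outside_key {key : Fin 13 → α} {f : Fin 13 → ℕ} (hk : Refines key f)
    (S : Finset (Fin 13)) {v : Fin 13} (hv : v ∉ S) :
    ∃ z, z ∉ S ∧ f z ≤ f v ∧ ∀ u, u ∉ S → key z ≤ key u ∧ f z ≤ f u := by
  obtain ⟨z, hz, hmin⟩ := exists_min_image Sᶜ key ⟨v, mem_compl.2 hv⟩
  exact ⟨z, mem_compl.1 hz, hk.le (hmin v (mem_compl.2 hv)),
    fun u hu => ⟨hmin u (mem_compl.2 hu), hk.le (hmin u (mem_compl.2 hu))⟩⟩

end key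

/-- three smallest points, key version for `MM` -/
theorem three_smallest' {α : Type*} [LinearOrder α] {B : Finset (Finset (Fin 13))}
    {key : Fin 13 → α} (hk : Refines key (MM B))
    (h : 3 ≤ (univ.filter fun z => MM B z ≤ 4).card) :
    ∃ x y z : Fin 13, x ≠ y ∧ x ≠ z ∧ y ≠ z ∧ key x ≤ key y ∧ key y ≤ key z ∧
      MM B x ≤ MM B y ∧ MM B y ≤ MM B z ∧ MM B z ≤ 4 ∧ (∀ u, MM B x ≤ MM B u) ∧
      ∀ u, u ≠ x → u ≠ y → u ≠ z → key z ≤ key u ∧ MM B z ≤ MM B u := by
  obtain ⟨x, y, z, h1, h2, h3, h4, h5, h6, h7, h8, h9⟩ := three_smallest_key hk h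
  refine ⟨x, y, z, h1, h2, h3, h4, h5, h6, h7, h8, fun u => ?_, h9⟩
  by_cases hx : u = x
  · rw [hx]
  · by_cases hy : u = y
    · rw [hy]
      exact h6
    · by_cases hz : u = z
      · rw [hz]
        omega
      · have := (h9 u hx hy hz).2
        omega

/-- three smallest points -/
theorem three_smallest {B : Finset (Finset (Fin 13))}
    (h : 3 ≤ (univ.filter fun z => MM B z ≤ 4).card) :
    ∃ x y z : Fin 13, x ≠ y ∧ x ≠ z ∧ y ≠ z ∧ MM B x ≤ MM B y ∧ MM B y ≤ MM B z ∧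
      MM B z ≤ 4 ∧ (∀ u, MM B x ≤ MM B u) ∧ ∀ u, u ≠ x → u ≠ y → u ≠ z → MM B z ≤ MM B u := by
  obtain ⟨x, y, z, h1, h2, h3, -, -, h6, h7, h8, h9, h10⟩ := three_smallest' (refines_self (MM B)) h
  exact ⟨x, y, z, h1, h2, h3, h6, h7, h8, h9, fun u a b c => (h10 u a b c).2⟩

/-- the lexicographic key (MM, class number) -/
def lexKey (B : Finset (Finset (Fin 13))) (cls : Fin 13 → ℕ) (z : Fin 13) : ℕ ×ₗ ℕ :=
  toLex (MM B z, cls z)

theorem refines_lexKey (B : Finset (Finset (Fin 13))) (cls : Fin 13 → ℕ) :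
    Refines (lexKey B cls) (MM B) := fun _ _ h => Prod.Lex.toLex_lt_toLex.2 (Or.inl h)

theorem lexKey_le {B : Finset (Finset (Fin 13))} {cls : Fin 13 → ℕ} {u v : Fin 13}
    (h : lexKey B cls u ≤ lexKey B cls v) (he : MM B u = MM B v) : cls u ≤ cls v := by
  rcases Prod.Lex.toLex_le_toLex.1 h with h1 | h1
  · exact absurd h1 (by simp only [he, lt_self_iff_false, not_false_eq_true])
  · exact h1.2

end Pool.Agent.Helper30.TY
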