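import Pool.Agent.Helper79.CV.FDriver
import Pool.Agent.Helper33.TY.SPair

/-!
MP_8ee768_co, project TH-Y': the driver of stage T (vector `(4, 4; 6^4 | 8^7)`), Finset level.

The centre `x` is the point with `MM = 4` whose class has the smaller index; the frame is
`x = 12`, `z = 11`.
-/

set_option autoImplicit false

namespace Pool.Agent.Helper30.TY

open Finset
open Pool.Agent.Helper89.CV (OddCover ofMask)
open Pool.Agent.Helper97.CV Pool.Agent.Helper79.CV Pool.Agent.Helper33.TY
open Pool.Agent.Helper4.CV (Mat NoS StT aa)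
open Pool.Agent.Helper82.TY (below Best)

/-- families of sets of points -/
abbrev Fam := Finset (Finset (Fin 13))

/-- the six light points: `Y` is a set of four points with `MM = 6`, all other points have
`MM = 8` and every bad quad meets `{x, z} ∪ Y` in one or two points -/
structure Six (B : Fam) (x z : Fin 13) (Y : Finset (Fin 13)) : Prop where
  card : Y.card = 4
  nx : x ∉ Y
  nz : z ∉ Y
  six : ∀ u ∈ Y, MM B u = 6
  eight : ∀ u, u ≠ x → u ≠ z → u ∉ Y → MM B u = 8
  bad : ∀ q : Finset (Fin 13), q.card = 4 → 1 ≤ ex B q →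
    (q ∩ insert x (insert z Y)).card = 1 ∨ (q ∩ insert x (insert z Y)).card = 2

/-- the configuration of stage T with centre `x` of class `j` -/
structure QT (reps : List ℕ) (j : ℕ) (B : Fam) (x z : Fin 13) : Prop where
  best : Best B
  nos : NoS B
  xz : x ≠ z
  hx : MM B x = 4
  hz : MM B z = 4
  six : ∃ Y, Six B x z Y
  cls : Cls reps j (link B x)
  low : ∀ i < j, ¬ Cls reps i (link B z)

theorem MM_map {B : Fam} (hB : OddCover B) (σ : Equiv.Perm (Fin 13)) (u : Fin 13) :
    MM (mapF σ B) u = MM B (σ.symm u) := by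
  conv_lhs => rw [← Equiv.apply_symm_apply σ u]
  exact MM_mapF hB σ _

theorem Six.map {B : Fam} (hB : OddCover B) {x z : Fin 13} {Y : Finset (Fin 13)}
    (h : Six B x z Y) (σ : Equiv.Perm (Fin 13)) : Six (mapF σ B) (σ x) (σ z) (mapS σ Y) := by
  refine ⟨by rw [card_mapS]; exact h.card, ?_, ?_, ?_, ?_, ?_⟩
  · rw [mem_mapS]
    exact h.nx
  · rw [mem_mapS]
    exact h.nz
  · intro u hu
    rw [mem_mapS'] at hu
    rw [MM_map hB]
    exact h.six _ hu
  · intro u h1 h2 h3
    rw [mem_mapS'] at h3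
    rw [MM_map hB]
    refine h.eight _ ?_ ?_ h3
    · intro h4
      exact h1 (by rw [← h4, Equiv.apply_symm_apply])
    · intro h4
      exact h2 (by rw [← h4, Equiv.apply_symm_apply])
  · intro q hq hex
    have h1 : q = mapS σ (mapS σ.symm q) := (mapS_mapS_symm σ q).symm
    rw [h1, ex_mapF] at hex
    have h2 := h.bad _ (by rw [card_mapS]; exact hq) hex
    have h3 : q ∩ insert (σ x) (insert (σ z) (mapS σ Y)) =
        mapS σ (mapS σ.symm q ∩ insert x (insert z Y)) := by
      ext a
      rw [mem_inter, mem_mapS', mem_inter, mem_insert, mem_insert, mem_insert, mem_insert,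
        mem_mapS', mem_mapS', Equiv.symm_symm, Equiv.apply_symm_apply, Equiv.symm_apply_eq,
        Equiv.symm_apply_eq]
    rw [h3, card_mapS]
    exact h2

theorem QT.map {reps : List ℕ} {j : ℕ} {B : Fam} {x z : Fin 13} (h : QT reps j B x z)
    (σ : Equiv.Perm (Fin 13)) : QT reps j (mapF σ B) (σ x) (σ z) := by
  have hB := h.best.odd
  obtain ⟨Y, hY⟩ := h.six
  refine ⟨best_mapF h.best σ, nos_mapF hB h.nos σ, σ.injective.ne h.xz, ?_, ?_,
    ⟨_, hY.map hB σ⟩, ?_, ?_⟩
  · rw [MM_mapF hB]
    exact h.hx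
  · rw [MM_mapF hB]
    exact h.hz
  · rw [link_mapF, cls_mapF]
    exact h.cls
  · intro i hi
    rw [link_mapF, cls_mapF]
    exact h.low i hi

theorem inv_QT (reps : List ℕ) (j : ℕ) : Inv₂ (QT reps j) := fun σ _ _ _ h => h.map σ

theorem QT.other {reps : List ℕ} {j : ℕ} {B : Fam} {x z : Fin 13} (h : QT reps j B x z)
    {u : Fin 13} (hx : u ≠ x) (hz : u ≠ z) : MM B u = 6 ∨ MM B u = 8 := by
  obtain ⟨Y, hY⟩ := h.six
  by_cases hu : u ∈ Y
  · exact Or.inl (hY.six u hu)
  · exact Or.inr (hY.eight u hx hz hu)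

theorem QT.min {reps : List ℕ} {j : ℕ} {B : Fam} {x z : Fin 13} (h : QT reps j B x z)
    (u : Fin 13) : 4 ≤ MM B u := by
  by_cases hx : u = x
  · rw [hx, h.hx]
  · by_cases hz : u = z
    · rw [hz, h.hz]
    · rcases h.other hx hz with h1 | h1 <;> omega

theorem QT.mm_xz {reps : List ℕ} {j : ℕ} {B : Fam} {x z : Fin 13} (h : QT reps j B x z) :
    mm B x z = 0 := h.nos x z h.xz h.hx.le (by rw [h.hz]; norm_num)

/-- neighbours of `x` and `z` are heavy -/
theorem QT.heavy {reps : List ℕ} {j : ℕ} {B : Fam} {x z : Fin 13} (h : QT reps j B x z)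
    {u w : Fin 13} (hu : u = x ∨ u = z) (huw : u ≠ w) (hm : 1 ≤ mm B u w) : MM B w = 8 := by
  have hMu : MM B u = 4 := by
    rcases hu with rfl | rfl
    · exact h.hx
    · exact h.hz
  have h1 : ¬ MM B w ≤ 6 := by
    intro h2
    have := h.nos u w huw hMu.le h2
    omega
  have hwx : w ≠ x := by
    rintro rfl
    rw [h.hx] at h1
    omega
  have hwz : w ≠ z := by
    rintro rfl
    rw [h.hz] at h1
    omega
  rcases h.other hwx hwz with h2 | h2 <;> omega

/-- the links of `x` and `z` are reduced -/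
theorem QT.red {reps : List ℕ} {j : ℕ} {B : Fam} {x z : Fin 13} (h : QT reps j B x z)
    {u : Fin 13} (hu : MM B u = 4) {U : Finset (Fin 13)} (hU : U.card = 5) (huU : u ∉ U) :
    (link B u ∩ U.powersetCard 4).card ≤ 2 :=
  Pool.Agent.Helper82.TY.Best.p_le_two h.best hU huU fun v => by
    rw [hu]
    exact h.min v

theorem not_bad_of_aa {B : Fam} {L : Finset (Fin 13)} {i : ℕ} (h : aa B L i = 0)
    {q : Finset (Fin 13)} (hq : q.card = 4) (hi : (q ∩ L).card = i) : ex B q = 0 := by
  unfold aa at h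
  exact (sum_eq_zero_iff.1 h) q (mem_filter.2 ⟨mem_quads.2 hq, hi⟩)

theorem one_or_two {B : Fam} {L : Finset (Fin 13)} (a0 : aa B L 0 = 0) (a3 : aa B L 3 = 0)
    (a4 : aa B L 4 = 0) {q : Finset (Fin 13)} (hq : q.card = 4) (hex : 1 ≤ ex B q) :
    (q ∩ L).card = 1 ∨ (q ∩ L).card = 2 := by
  have h1 : (q ∩ L).card ≤ q.card := card_le_card inter_subset_left
  rw [hq] at h1
  obtain ⟨n, hn⟩ : ∃ n, (q ∩ L).card = n := ⟨_, rfl⟩
  rw [hn] at h1 ⊢
  rcases Nat.lt_or_ge n 1 with h | h
  · have h2 : n = 0 := by omega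
    rw [h2] at hn
    rw [not_bad_of_aa a0 hq hn] at hex
    omega
  · rcases Nat.lt_or_ge 2 n with h3 | h3
    · rcases Nat.lt_or_ge n 4 with h4 | h4
      · have h2 : n = 3 := by omega
        rw [h2] at hn
        rw [not_bad_of_aa a3 hq hn] at hex
        omega
      · have h2 : n = 4 := by omega
        rw [h2] at hn
        rw [not_bad_of_aa a4 hq hn] at hex
        omega
    · omega

theorem pair_set {x z u v : Fin 13} (hu : u ∈ ({x, z} : Finset (Fin 13)))
    (hv : v ∈ ({x, z} : Finset (Fin 13))) (huv : u ≠ v) (S : Finset (Fin 13)) :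
    insert u (insert v S) = insert x (insert z S) := by
  rw [mem_insert, mem_singleton] at hu hv
  rcases hu with rfl | rfl <;> rcases hv with rfl | rfl
  · exact absurd rfl huv
  · rfl
  · rw [insert_comm]
  · exact absurd rfl huv

/-- the set of the four points with `MM = 6` -/
theorem six_of {B : Fam} {u v : Fin 13} {Y L : Finset (Fin 13)} (hset : insert u (insert v Y) = L)
    (hcard : Y.card = 4) (hu : MM B u = 4) (hv : MM B v = 4) (hY : ∀ w ∈ Y, MM B w = 6)
    (hoth : ∀ w, w ∉ L → MM B w = 8)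
    (h12 : ∀ q : Finset (Fin 13), q.card = 4 → 1 ≤ ex B q →
      (q ∩ L).card = 1 ∨ (q ∩ L).card = 2) : Six B u v Y where
  card := hcard
  nx := fun h => by have := hY u h; omega
  nz := fun h => by have := hY v h; omega
  six := hY
  eight := fun w h1 h2 h3 => hoth w (by
    rw [← hset, mem_insert, mem_insert]
    rintro (h | h | h)
    · exact h1 h
    · exact h2 h
    · exact h3 h)
  bad := fun q hq hex => by
    rw [hset]
    exact h12 q hq hex

theorem card_four {a b c d : Fin 13} (h12 : a ≠ b) (h13 : a ≠ c) (h14 : a ≠ d) (h23 : b ≠ c)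
    (h24 : b ≠ d) (h34 : c ≠ d) : ({a, b, c, d} : Finset (Fin 13)).card = 4 := by
  rw [card_insert_of_notMem (by
      rw [mem_insert, mem_insert, mem_singleton]
      rintro (h | h | h)
      · exact h12 h
      · exact h13 h
      · exact h14 h),
    card_insert_of_notMem (by
      rw [mem_insert, mem_singleton]
      rintro (h | h)
      · exact h23 h
      · exact h24 h),
    card_insert_of_notMem (by
      rw [mem_singleton]
      exact h34), card_singleton]

/-- stage T from the classes and the dead configurations of every class -/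
theorem stT_of {reps : List ℕ} (hcls : ClsOK 4 reps)
    (hdead : ∀ j B x z, QT reps j B x z → False) : StT := by
  intro B hB hmat hnos hsum x z y1 y2 y3 y4 hxz h12 h13 h14 h23 h24 h34 hx hz hy1 hy2 hy3 hy4
    hoth e12 e34 e13 e14 e23 e24 a0 a3 a4
  classical
  have hBo := hB.odd
  have hbad : ∀ q : Finset (Fin 13), q.card = 4 → 1 ≤ ex B q →
      (q ∩ insert x (insert z {y1, y2, y3, y4})).card = 1 ∨
        (q ∩ insert x (insert z {y1, y2, y3, y4})).card = 2 :=
    fun q hq hex => one_or_two a0 a3 a4 hq hex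
  have hM : ∀ w ∈ ({y1, y2, y3, y4} : Finset (Fin 13)), MM B w = 6 := by
    intro w hw
    rw [mem_insert, mem_insert, mem_insert, mem_singleton] at hw
    rcases hw with h | h | h | h <;> rw [h] <;> assumption
  have hO : ∀ w, w ∉ insert x (insert z ({y1, y2, y3, y4} : Finset (Fin 13))) → MM B w = 8 := by
    intro w hw
    rw [mem_insert, mem_insert, mem_insert, mem_insert, mem_insert, mem_singleton, not_or, not_or,
      not_or, not_or, not_or] at hw
    exact hoth w hw.1 hw.2.1 hw.2.2.1 hw.2.2.2.1 hw.2.2.2.2.1 hw.2.2.2.2.2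
  have hc := card_four h12 h13 h14 h23 h24 h34
  have hS1 : Six B x z {y1, y2, y3, y4} := six_of rfl hc hx hz hM hO hbad
  have hS2 : Six B z x {y1, y2, y3, y4} := six_of (insert_comm _ _ _) hc hz hx hM hO hbad
  -- class indices
  have hex : ∀ w, MM B w = 4 → ∃ j, Cls reps j (link B w) := fun w hw =>
    cls_link hBo hcls hw.le
  rcases le_total (Nat.find (hex x hx)) (Nat.find (hex z hz)) with h | h
  · exact hdead _ B x z ⟨hB, hnos, hxz, hx, hz, ⟨_, hS1⟩, Nat.find_spec (hex x hx),
      fun i hi => Nat.find_min (hex z hz) (by omega)⟩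
  · exact hdead _ B z x ⟨hB, hnos, hxz.symm, hz, hx, ⟨_, hS2⟩,
      Nat.find_spec (hex z hz), fun i hi => Nat.find_min (hex x hx) (by omega)⟩

/-- the classes which cannot be the class of the centre: wrong size or not reduced -/
theorem dead_small {reps : List ℕ} {j r : ℕ} (hr : reps[j]? = some r)
    (hbad : (fam 12 4 r).card ≠ 59 ∨ ∃ U : Finset (Fin 13), U.card = 5 ∧ (12 : Fin 13) ∉ U ∧
      3 ≤ (fam 12 4 r ∩ U.powersetCard 4).card)
    {B : Fam} {x z : Fin 13} (h : QT reps j B x z) : False := by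
  obtain ⟨r', hr', σ, hσ⟩ := h.cls
  rw [hr] at hr'
  obtain rfl := Option.some_injective _ hr'
  have hx12 := perm_root h.best.odd hσ
  have h1 := h.map σ
  rw [hx12] at h1
  have hlink : link (mapF σ B) 12 = fam 12 4 r := by
    rw [← hσ, ← hx12, link_mapF]
  rcases hbad with h2 | ⟨U, hU, hU12, h3⟩
  · have h3 := two_mul_card_link h1.best.odd 12
    rw [hlink, h1.hx] at h3
    omega
  · have h2 := h1.red h1.hx hU hU12
    rw [hlink] at h2
    omega

/-- the property of the link of `z` -/
def PT (reps : List ℕ) (j : ℕ) (D : Fam) : Prop := ∀ i < j, ¬ Cls reps i D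

theorem inv_PT (reps : List ℕ) (j : ℕ) : Inv (PT reps j) := by
  intro σ D h i hi hc
  rw [cls_mapF] at hc
  exact h i hi hc

/-- one class: from the frames, the table entries and the dead pairs -/
theorem dead_class {reps : List ℕ} {j r : ℕ} (hr : reps[j]? = some r) {pos : List (ℕ × ℕ)}
    (hpos : PosOK r pos) {S : ℕ → Set Fam}
    (hT : ∀ rT ∈ pos, TableOK rT.2 4 (PT reps j) (S rT.2))
    (hkill : ∀ rT ∈ pos, ∀ E ∈ S rT.2, PDead (QT reps j) rT.1 (cone 11 E))
    {B : Fam} {x z : Fin 13} (h : QT reps j B x z) : False := by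
  obtain ⟨r', hr', σ, hσ⟩ := h.cls
  rw [hr] at hr'
  obtain rfl := Option.some_injective _ hr'
  have hx12 := perm_root h.best.odd hσ
  have h1 := h.map σ
  rw [hx12] at h1
  have hlink : link (mapF σ B) 12 = fam 12 4 r := by
    rw [← hσ, ← hx12, link_mapF]
  have hz12 : σ z ≠ 12 := h1.xz.symm
  have hc : (link (fam 12 4 r) (σ z)).card = 19 := by
    rw [← hlink, card_link_link h1.best.odd hz12.symm, h1.mm_xz]
  obtain ⟨τ, h12, hτ, rT, hrT, h2, h3⟩ := hpos (σ z) hz12 hc
  have h4 := h1.map τ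
  rw [h12, hτ] at h4
  have hlink2 : link (mapF τ (mapF σ B)) 12 = fam 12 4 rT.1 := by
    rw [← h2, ← hlink]
    conv_lhs => rw [← h12]
    exact link_mapF τ _ _
  have h5 : mapF 1 (link (link (mapF τ (mapF σ B)) 12) 11) = fam 11 3 rT.2 := by
    rw [mapF_one, hlink2, h3]
  obtain ⟨E, hE, h6⟩ := linkage h4.best.odd (inv_PT reps j) (hT rT hrT) (σ := 1) rfl rfl h5
    h4.hz.le h4.low
  refine hkill rT hrT E hE _ h4 hlink2 ?_
  have h7 : (1 : Equiv.Perm (Fin 13)).symm = 1 := rfl
  rw [h7, mapF_one] at h6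
  exact h6

end Pool.Agent.Helper30.TY
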