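import Pool.Agent.Helper30.TY.TSeg

/-!
MP_8ee768_co, project TH-Y', stage T: end of the stage.
-/

set_option autoImplicit false
set_option exponentiation.threshold 600

namespace Pool.Agent.Helper30.TY

open Finset
open Pool.Agent.Helper89.CV (OddCover ofMask)
open Pool.Agent.Helper97.CV Pool.Agent.Helper79.CV Pool.Agent.Helper33.CV Pool.Agent.Helper33.TY
open Pool.Agent.Helper44.TY (autSet Rec listOf mem_listOf)
open Pool.Agent.Helper67.TY (repA repB autA autB)

theorem DoneC.app {chA chB : List Chk} {a b d : ℕ} (h1 : DoneC chA chB a b)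
    (h2 : DoneC chA chB b d) : DoneC chA chB a d := by
  intro hT j hj hd B x z hq
  by_cases h : j < b
  · exact h1 hT j hj h B x z hq
  · exact h2 hT j (not_lt.1 h) hd B x z hq

/-- every image of every entry of the classes `a ≤ k < b` is in the chunks -/
def CovC (f : Rec → List ℕ) (Rs : List Rec) (ws : List (List ℕ)) (chs : List Chk)
    (a b : ℕ) : Prop :=
  ∀ k, a ≤ k → k < b → ∀ R, Rs[k]? = some R → ∀ e ∈ f R, ∀ w ∈ ws,
    Keeps 11 (pW w) → ∃ ch ∈ chs, ∃ x ∈ ch.2,
      x.1 = k ∧ mapF (pW w) (fam 11 4 e) = fam 11 4 (eP x.2)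

theorem CovC.app {f : Rec → List ℕ} {Rs : List Rec} {ws : List (List ℕ)} {chs : List Chk}
    {a b d : ℕ} (h1 : CovC f Rs ws chs a b) (h2 : CovC f Rs ws chs b d) :
    CovC f Rs ws chs a d := by
  intro k hk hd R hR
  by_cases h : k < b
  · exact h1 k hk h R hR
  · exact h2 k (not_lt.1 h) hd R hR

theorem CovC.of {f : Rec → List ℕ} {Rs : List Rec} {ws : List (List ℕ)} {chs : List Chk}
    {lo n c3 : ℕ} {ps : List (List (ℕ × ℕ))} {q : List (List Chk)} (h3 : c3 = 2 ^ 330)
    (hps : ps = ws.map exW) (hws : ∀ w ∈ ws, ∀ a ∈ w, a < 10)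
    (h : covAll c3 ps lo (((Rs.drop lo).take n).map f) q = true)
    (hq : ∀ l ∈ q, ∀ c ∈ l, c ∈ chs) : CovC f Rs ws chs lo (lo + n) := by
  intro k h1 h2 R hR e he w hw hk
  have h4 : (((Rs.drop lo).take n).map f)[k - lo]? = some (f R) := by
    rw [List.getElem?_map, List.getElem?_take_of_lt (by omega), List.getElem?_drop]
    rw [show lo + (k - lo) = k by omega, hR]
    rfl
  obtain ⟨l, hl, h5⟩ := covAll_get h h4
  rw [show lo + (k - lo) = k by omega, hps] at h5
  obtain ⟨ch, hch, x, hx, h6, h7⟩ := covK_sound h3 hws h5 hw hk he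
  exact ⟨ch, hq l hl ch hch, x, hx, h6, h7⟩

theorem keeps_of_fix {α : Equiv.Perm (Fin 13)} (h : Fix2 α) : Keeps 11 α := by
  intro i hi
  have h1 : α i ≠ 11 := fun h2 => by
    have h3 : i = 11 := α.injective (h2.trans h.1.symm)
    rw [h3] at hi
    exact absurd hi (by decide)
  have h2 : α i ≠ 12 := fun h2 => by
    have h3 : i = 12 := α.injective (h2.trans h.2.symm)
    rw [h3] at hi
    exact absurd hi (by decide)
  have h3 : (α i).val ≠ 11 := fun h4 => h1 (Fin.ext h4)
  have h4 : (α i).val ≠ 12 := fun h4 => h2 (Fin.ext h4)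
  have := (α i).isLt
  omega

theorem fix_of_valL {α : Equiv.Perm (Fin 13)} (h : (valL α).getD 11 0 = 11)
    (h' : (valL α).getD 12 0 = 12) : Fix2 α := by
  unfold valL at h h'
  constructor
  · apply Fin.ext
    have := h
    rw [List.getD_eq_getElem?_getD, List.getElem?_ofFn] at this
    simpa using this
  · apply Fin.ext
    have := h'
    rw [List.getD_eq_getElem?_getD, List.getElem?_ofFn] at this
    simpa using this

theorem tableOK_of_covC {reps : List ℕ} {T j lo : ℕ} {auts : List (List ℕ)}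
    {ws : List (List ℕ)} {f : Rec → List ℕ} {Rs : List Rec} {chs : List Chk}
    (hT : TabA reps T 4 (fun _ _ => True) (autSet auts) (listOf f 0 Rs))
    (hc : CovC f Rs ws chs lo Rs.length) (hlo : lo ≤ j)
    (hv : ws.map (fun w => valL (pW w)) = auts)
    (ha : ∀ v ∈ auts, v.getD 11 0 = 11 ∧ v.getD 12 0 = 12) :
    TableOK T 4 (PT reps j) (entS chs j) := by
  refine tableOK_of_cov hT (ws := ws) ?_ ?_
  · intro k e hke hjk w hw
    obtain ⟨i, R, h1, h2, h3⟩ := mem_listOf.1 hke
    rw [Nat.zero_add] at h2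
    subst h2
    have h4 : k < Rs.length := (List.getElem?_eq_some_iff.1 h1).1
    refine hc k (le_trans hlo hjk) h4 R h1 e h3 w hw (keeps_of_fix ?_)
    have h5 : valL (pW w) ∈ auts := by
      rw [← hv]
      exact List.mem_map_of_mem (f := fun w => valL (pW w)) hw
    exact fix_of_valL (ha _ h5).1 (ha _ h5).2
  · intro v hv'
    rw [← hv, List.mem_map] at hv'
    exact hv'

/-- **stage T from its data** -/
theorem stageT_of {chA chB : List Chk} {RA RB : List Rec} {wA wB : List (List ℕ)}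
    {fA fB : Rec → List ℕ} {auA auB : List (List ℕ)}
    (hD : DoneC chA chB 212 466) (hl : repsF.length = 466)
    (hA : TabA repsF repA 4 (fun _ _ => True) (autSet auA) (listOf fA 0 RA))
    (hB : TabA repsF repB 4 (fun _ _ => True) (autSet auB) (listOf fB 0 RB))
    (cA : CovC fA RA wA chA 212 RA.length) (cB : CovC fB RB wB chB 212 RB.length)
    (vA : wA.map (fun w => valL (pW w)) = auA) (vB : wB.map (fun w => valL (pW w)) = auB)
    (aA : ∀ v ∈ auA, v.getD 11 0 = 11 ∧ v.getD 12 0 = 12)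
    (aB : ∀ v ∈ auB, v.getD 11 0 = 11 ∧ v.getD 12 0 = 12)
    (j : ℕ) (B : Fam) (x z : Fin 13) (h : QT repsF j B x z) : False := by
  by_cases h1 : j < 212
  · exact dead_low h1 h
  · obtain ⟨r, hr, -⟩ := h.cls
    have h2 : j < repsF.length := (List.getElem?_eq_some_iff.1 hr).1
    rw [hl] at h2
    refine hD (fun i hi => ⟨?_, ?_⟩) j (not_lt.1 h1) h2 B x z h
    · exact tableOK_of_covC hA cA hi vA aA
    · exact tableOK_of_covC hB cB hi vB aB

/-- every frame of the blocks is dead against every chunk -/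
theorem fdead_all {BB : List (List FRec)} {chs : List Chk}
    (h : ∀ c ∈ chs, ∀ l ∈ BB, ∀ f ∈ l, FDead [c] f) : ∀ l ∈ BB, ∀ f ∈ l, FDead chs f :=
  fun l hl f hf => fdead_of_chunks fun c hc => h c hc l hl f hf

/-- the chunks `p.1, ..., p.1 + p.2 - 1` -/
def cps (chs : List Chk) (p : ℕ × ℕ) : List Chk := (chs.drop p.1).take p.2

theorem CovC.of' {f : Rec → List ℕ} {Rs : List Rec} {ws : List (List ℕ)} {chs : List Chk}
    {lo n c3 : ℕ} {ps : List (List (ℕ × ℕ))} {q : List (ℕ × ℕ)} (h3 : c3 = 2 ^ 330)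
    (hps : ps = ws.map exW) (hws : ∀ w ∈ ws, ∀ a ∈ w, a < 10)
    (h : covAll c3 ps lo (((Rs.drop lo).take n).map f) (q.map (cps chs)) = true) :
    CovC f Rs ws chs lo (lo + n) := by
  refine CovC.of h3 hps hws h fun l hl c hc => ?_
  rw [List.mem_map] at hl
  obtain ⟨p, -, rfl⟩ := hl
  exact List.mem_of_mem_drop (List.mem_of_mem_take hc)

/-- record of a class from the numbers of its blocks -/
def mkD (BA BB : List (List FRec)) (x : List PItem × ℕ × ℕ × ℕ × ℕ) : PRec :=
  (x.1, sl BA x.2.1 x.2.2.1, sl BB x.2.2.2.1 x.2.2.2.2)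

theorem doneC_mk {BA BB : List (List FRec)} {chA chB : List Chk} {c4 lo n : ℕ}
    (hA : ∀ l ∈ BA, ∀ f ∈ l, FDead chA f) (hB : ∀ l ∈ BB, ∀ f ∈ l, FDead chB f)
    (hlo : 212 ≤ lo) (h4 : c4 = 2 ^ 495) {xs : List (List PItem × ℕ × ℕ × ℕ × ℕ)}
    (h : allC c4 lo ((repsF.drop lo).take n) (xs.map (mkD BA BB)) = true) :
    DoneC chA chB lo (lo + n) := by
  refine doneC_of hlo h4 h ?_ ?_
  · intro d hd f hf
    rw [List.mem_map] at hd
    obtain ⟨x, -, rfl⟩ := hd
    exact of_mem_sl hA f hf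
  · intro d hd f hf
    rw [List.mem_map] at hd
    obtain ⟨x, -, rfl⟩ := hd
    exact of_mem_sl hB f hf

end Pool.Agent.Helper30.TY
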