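import Pool.Agent.Helper30.TY.TStage

/-!
MP_8ee768_co, project TH-Y', stage T: segments of the list of blocks of frames.
-/

set_option autoImplicit false
set_option exponentiation.threshold 600

namespace Pool.Agent.Helper30.TY

open Finset
open Pool.Agent.Helper67.TY (repA repB)

/-- the frames of the blocks `a, ..., a + n - 1` -/
def sl (BB : List (List FRec)) (a n : ℕ) : List FRec := ((BB.drop a).take n).flatten

/-- the blocks `a, ..., b - 1` are dead against the chunk `c` -/
def Sg (BB : List (List FRec)) (c : Chk) (a b : ℕ) : Prop :=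
  ∀ i, a ≤ i → i < b → ∀ l, BB[i]? = some l → ∀ f ∈ l, FDead [c] f

theorem Sg.app {BB : List (List FRec)} {c : Chk} {a b d : ℕ} (h1 : Sg BB c a b)
    (h2 : Sg BB c b d) : Sg BB c a d := by
  intro i hi hd
  by_cases h : i < b
  · exact h1 i hi h
  · exact h2 i (not_lt.1 h) hd

theorem mem_sl {BB : List (List FRec)} {a n i : ℕ} (h1 : a ≤ i) (h2 : i < a + n)
    {l : List FRec} (hl : BB[i]? = some l) : ∀ f ∈ l, f ∈ sl BB a n := by
  intro f hf
  unfold sl
  rw [List.mem_flatten]
  refine ⟨l, ?_, hf⟩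
  have h3 : ((BB.drop a).take n)[i - a]? = some l := by
    rw [List.getElem?_take_of_lt (by omega), List.getElem?_drop]
    rw [show a + (i - a) = i by omega]
    exact hl
  exact List.mem_of_getElem? h3

theorem of_mem_sl {BB : List (List FRec)} {P : FRec → Prop} (h : ∀ l ∈ BB, ∀ f ∈ l, P f)
    {a n : ℕ} : ∀ f ∈ sl BB a n, P f := by
  intro f hf
  unfold sl at hf
  rw [List.mem_flatten] at hf
  obtain ⟨l, hl, hfl⟩ := hf
  exact h l (List.mem_of_mem_drop (List.mem_of_mem_take hl)) f hfl

theorem sgA {BB : List (List FRec)} {c : Chk} {a n s : ℕ}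
    (hF : ∀ l ∈ BB, ∀ f ∈ l, FrOK repA f) (hX : ChOK repA c)
    (h : tileA (sl BB a n) c s = true) : Sg BB c a (a + n) := fun _ hi hd _ hl f hf =>
  tileA_sound (of_mem_sl hF) hX h f (mem_sl hi hd hl f hf)

theorem sgB {BB : List (List FRec)} {c : Chk} {a n s : ℕ}
    (hF : ∀ l ∈ BB, ∀ f ∈ l, FrOK repB f) (hX : ChOK repB c)
    (h : tileB (sl BB a n) c s = true) : Sg BB c a (a + n) := fun _ hi hd _ hl f hf =>
  tileB_sound (of_mem_sl hF) hX h f (mem_sl hi hd hl f hf)

/-- the frames from the block `m` on have classes above the chunk -/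
def lowB (BB : List (List FRec)) (c : Chk) (m : ℕ) : Bool :=
  (BB.drop m).all fun l => l.all fun f => Nat.blt c.1 f.1

theorem Sg.low {T : ℕ} {BB : List (List FRec)} {c : Chk} {m d : ℕ} (hX : ChOK T c)
    (h : lowB BB c m = true) : Sg BB c m d := by
  intro i hi _ l hl f hf ch hch a ha hk
  rw [List.mem_singleton] at hch
  subst hch
  have h1 := hX.2.2 a ha
  have h2 : (BB.drop m)[i - m]? = some l := by
    rw [List.getElem?_drop, show m + (i - m) = i by omega]
    exact hl
  have h3 := List.all_eq_true.1 (List.all_eq_true.1 h l (List.mem_of_getElem? h2)) f hf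
  rw [Nat.blt_eq] at h3
  omega

theorem Sg.all {BB : List (List FRec)} {c : Chk} {d : ℕ} (h : Sg BB c 0 d)
    (hd : BB.length ≤ d) : ∀ l ∈ BB, ∀ f ∈ l, FDead [c] f := by
  intro l hl f hf
  obtain ⟨i, hi, rfl⟩ := List.mem_iff_getElem.1 hl
  exact h i (Nat.zero_le _) (by omega) _ (List.getElem?_eq_getElem hi) f hf

theorem fdead_of_chunks {chs : List Chk} {f : FRec} (h : ∀ c ∈ chs, FDead [c] f) :
    FDead chs f := fun ch hch => h ch hch ch (List.mem_singleton.2 rfl)

end Pool.Agent.Helper30.TY
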