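import Pool.Agent.Helper30.TY.TTab
import Pool.Agent.Helper30.TY.TCheck
import Pool.Agent.Helper30.TY.PosNet
import Pool.Agent.Helper64.TY.TPair
import Pool.Agent.Gen.TY.FT.Fin

/-!
MP_8ee768_co, project TH-Y', stage T: from the tiles to the classes.
-/

set_option autoImplicit false
set_option exponentiation.threshold 600

namespace Pool.Agent.Helper30.TY

open Finset
open Pool.Agent.Helper89.CV (OddCover ofMask pc ofMask_card)
open Pool.Agent.Helper97.CV Pool.Agent.Helper79.CV Pool.Agent.Helper33.CV Pool.Agent.Helper33.TY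
open Pool.Agent.Helper64.TY.K7 (cbT cbT_law)
open Pool.Agent.Helper67.TY (repA repB autA autB)
open Pool.Agent.Gen.TY.FT (lA lB tabA_F tabB_F)

/-! ## the classes below 212 -/

theorem red_false : (List.range 212).all (fun j => Nat.blt j 39 || !(redF j)) = true := by
  decide +kernel

theorem dead_low {j : ℕ} (hj : j < 212) {B : Fam} {x z : Fin 13} (h : QT repsF j B x z) :
    False := by
  obtain ⟨r, hr, -⟩ := h.cls
  have h1 := List.all_eq_true.1 red_false j (List.mem_range.2 hj)
  rw [Bool.or_eq_true, Nat.blt_eq, Bool.not_eq_true'] at h1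
  rcases h1 with h1 | h1
  · refine dead_small hr (Or.inl ?_) h
    rw [repsF_card hr, szF_eq]
    split_ifs <;> omega
  · obtain ⟨-, -, w, hw, hok⟩ := chkF_get chkF_ok hr
    have hw0 : Nat.beq w 0 = false := by
      unfold redF at h1
      rw [List.getD_eq_getElem?_getD, hw] at h1
      exact h1
    unfold witOK at hok
    rw [hw0, Bool.false_or, Bool.and_eq_true, Bool.and_eq_true, Nat.blt_eq, Nat.beq_eq,
      Nat.ble_eq] at hok
    obtain ⟨h2, h3, h4⟩ := hok
    refine dead_small hr (Or.inr ⟨ofMask w, by rw [ofMask_card, h3], ?_, ?_⟩) h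
    · rw [mem_ofMask]
      intro h5
      have e : (12 : Fin 13).val = 12 := rfl
      rw [e, Nat.testBit_eq_false_of_lt h2] at h5
      exact Bool.false_ne_true h5
    · rw [cub4_eq (repsF_lt hr)] at h4
      exact three_le_card h2 h3 h4

/-! ## tiles -/

/-- the frame is dead against all entries of the chunks -/
def FDead (chs : List Chk) (f : FRec) : Prop :=
  ∀ ch ∈ chs, ∀ a ∈ ch.2, f.1 ≤ a.1 → Dead2 f.2.1 a.2

/-- correct chunk -/
def ChOK (T : ℕ) (ch : Chk) : Prop := ch.2.length ≤ 64 ∧ (∀ a ∈ ch.2, EnOK T a) ∧ ∀ a ∈ ch.2, a.1 ≤ ch.1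

/-- check of a chunk -/
noncomputable def chChk (c T8 DT : ℕ) (ch : Chk) : Bool :=
  Nat.ble ch.2.length 64 && (allL (enChk1 c T8 DT) ch.2 && allL (fun a => Nat.ble a.1 ch.1) ch.2)

theorem chChk_sound {T c T8 DT : ℕ} (hc : c = 2 ^ 506) (h8 : T8 = tW T) (hD : DT = degK (tW T))
    {ch : Chk} (h : chChk c T8 DT ch = true) : ChOK T ch := by
  unfold chChk at h
  rw [Bool.and_eq_true, Bool.and_eq_true, Nat.ble_eq] at h
  refine ⟨h.1, enChk_sound hc h8 hD h.2.1, fun a ha => ?_⟩
  have := allL_iff h.2.2 a ha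
  rwa [Nat.ble_eq] at this

attribute [irreducible] chChk

/-- the tile of one chunk -/
noncomputable def tileA (frs : List FRec) (ch : Chk) (s : ℕ) : Bool :=
  tile (tpOf cbT) (eH t8A dtA) (rootK t8A dtA) frs [(ch, s)]

noncomputable def tileB (frs : List FRec) (ch : Chk) (s : ℕ) : Bool :=
  tile (tpOf cbT) (eH t8B dtB) (rootK t8B dtB) frs [(ch, s)]

theorem hbA : 2 ≤ cnt (fam 11 3 Pool.Agent.Gen.TY.EN.repA) {9, 10} := by
  decide +kernel

theorem hbB : 2 ≤ cnt (fam 11 3 Pool.Agent.Gen.TY.EN.repB) {9, 10} := by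
  decide +kernel

theorem eqA : Pool.Agent.Gen.TY.EN.repA = repA := rfl
theorem eqB : Pool.Agent.Gen.TY.EN.repB = repB := rfl

theorem tileA_sound {frs : List FRec} {ch : Chk} {s : ℕ} (hF : ∀ f ∈ frs, FrOK repA f)
    (hX : ChOK repA ch) (h : tileA frs ch s = true) : ∀ f ∈ frs, FDead [ch] f := by
  intro f hf ch' hch a ha hk
  rw [List.mem_singleton] at hch
  subst hch
  refine tile_sound' hbA t8A_eq dtA_eq cbT_law (chs := [(ch', s)]) ?_ ?_ h f hf (ch', s)
    (List.mem_singleton.2 rfl) a ha hk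
  · rw [eqA]
    exact hF
  · intro c hc
    rw [List.mem_singleton] at hc
    subst hc
    rw [eqA]
    exact ⟨hX.1, hX.2.1⟩

theorem tileB_sound {frs : List FRec} {ch : Chk} {s : ℕ} (hF : ∀ f ∈ frs, FrOK repB f)
    (hX : ChOK repB ch) (h : tileB frs ch s = true) : ∀ f ∈ frs, FDead [ch] f := by
  intro f hf ch' hch a ha hk
  rw [List.mem_singleton] at hch
  subst hch
  refine tile_sound' hbB t8B_eq dtB_eq cbT_law (chs := [(ch', s)]) ?_ ?_ h f hf (ch', s)
    (List.mem_singleton.2 rfl) a ha hk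
  · rw [eqB]
    exact hF
  · intro c hc
    rw [List.mem_singleton] at hc
    subst hc
    rw [eqB]
    exact ⟨hX.1, hX.2.1⟩

attribute [irreducible] tileA tileB

theorem FDead.cons {ch : Chk} {chs : List Chk} {frs : List FRec}
    (h1 : ∀ f ∈ frs, FDead [ch] f) (h2 : ∀ f ∈ frs, FDead chs f) :
    ∀ f ∈ frs, FDead (ch :: chs) f := by
  intro f hf ch' hch
  rcases List.mem_cons.1 hch with h | h
  · exact h1 f hf ch' (List.mem_singleton.2 h)
  · exact h2 f hf ch' h

/-- chunks with all classes below the classes of the frames -/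
def lowChk (frs : List FRec) (chs : List Chk) : Bool :=
  chs.all fun ch => frs.all fun f => Nat.blt ch.1 f.1

theorem FDead.low {T : ℕ} {chs chs' : List Chk} {frs : List FRec}
    (hX : ∀ ch ∈ chs ++ chs', ChOK T ch)
    (h1 : lowChk frs chs = true) (h2 : ∀ f ∈ frs, FDead chs' f) :
    ∀ f ∈ frs, FDead (chs ++ chs') f := by
  intro f hf ch hch a ha hk
  rcases List.mem_append.1 hch with h | h
  · have h3 := (hX ch hch).2.2 a ha
    unfold lowChk at h1
    have h4 := List.all_eq_true.1 (List.all_eq_true.1 h1 ch h) f hf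
    rw [Nat.blt_eq] at h4
    omega
  · exact h2 f hf ch h a ha hk

/-! ## one class -/

/-- record of a class: items, frames over `repA`, frames over `repB` -/
abbrev PRec := List PItem × List FRec × List FRec

/-- every item has its frame -/
def itsIn (A B j : ℕ) (its : List PItem) (FA FB : List FRec) : Bool :=
  its.all fun t => (Nat.beq t.2.2.2 A && FA.any fun f => Nat.beq f.2.1 t.2.2.1 && Nat.beq f.1 j) ||
    (Nat.beq t.2.2.2 B && FB.any fun f => Nat.beq f.2.1 t.2.2.1 && Nat.beq f.1 j)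

theorem class_dead {c4 j r : ℕ} (h4 : c4 = 2 ^ 495) {reps : List ℕ} (hr : reps[j]? = some r)
    {d : PRec} (hp : posN c4 r d.1 = true) (hi : itsIn repA repB j d.1 d.2.1 d.2.2 = true)
    {chA chB : List Chk} (hA : ∀ f ∈ d.2.1, FDead chA f) (hB : ∀ f ∈ d.2.2, FDead chB f)
    (hTA : TableOK repA 4 (PT reps j) (entS chA j))
    (hTB : TableOK repB 4 (PT reps j) (entS chB j)) {B : Fam} {x z : Fin 13}
    (h : QT reps j B x z) : False := by
  classical
  refine dead_class hr (posN_sound h4 hp)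
    (S := fun T => if T = repA then entS chA j else entS chB j) ?_ ?_ h
  · intro rT hrT
    rw [List.mem_map] at hrT
    obtain ⟨t, ht, rfl⟩ := hrT
    have h1 := List.all_eq_true.1 hi t ht
    rw [Bool.or_eq_true, Bool.and_eq_true, Bool.and_eq_true, Nat.beq_eq, Nat.beq_eq] at h1
    show TableOK t.2.2.2 4 (PT reps j) (if t.2.2.2 = repA then entS chA j else entS chB j)
    rcases h1 with h1 | h1
    · rw [if_pos h1.1, h1.1]
      exact hTA
    · have h2 : repB ≠ repA := by decide
      rw [h1.1, if_neg h2]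
      exact hTB
  · intro rT hrT E hE
    rw [List.mem_map] at hrT
    obtain ⟨t, ht, rfl⟩ := hrT
    have h1 := List.all_eq_true.1 hi t ht
    rw [Bool.or_eq_true, Bool.and_eq_true, Bool.and_eq_true, Nat.beq_eq, Nat.beq_eq] at h1
    show PDead (QT reps j) t.2.2.1 (cone 11 E)
    have hE' : E ∈ (if t.2.2.2 = repA then entS chA j else entS chB j) := hE
    rcases h1 with h1 | h1
    · rw [if_pos h1.1] at hE'
      obtain ⟨ch, hch, a, ha, hja, rfl⟩ := hE'
      obtain ⟨f, hf, h2⟩ := List.any_eq_true.1 h1.2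
      rw [Bool.and_eq_true, Nat.beq_eq, Nat.beq_eq] at h2
      have h3 := hA f hf ch hch a ha (by omega)
      rw [h2.1] at h3
      exact fun B hq h12 h11 => h3 B hq.t0 h12 h11
    · have h2 : repB ≠ repA := by decide
      rw [h1.1, if_neg h2] at hE'
      obtain ⟨ch, hch, a, ha, hja, rfl⟩ := hE'
      obtain ⟨f, hf, h2⟩ := List.any_eq_true.1 h1.2
      rw [Bool.and_eq_true, Nat.beq_eq, Nat.beq_eq] at h2
      have h3 := hB f hf ch hch a ha (by omega)
      rw [h2.1] at h3
      exact fun B hq h12 h11 => h3 B hq.t0 h12 h11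

/-! ## all classes -/

/-- the check of the classes from the number `j` on -/
noncomputable def allC (c4 : ℕ) : ℕ → List ℕ → List PRec → Bool
  | _, [], _ => true
  | _, _ :: _, [] => false
  | j, r :: rs, d :: ds => (posN c4 r d.1 && itsIn repA repB j d.1 d.2.1 d.2.2) &&
      allC c4 (j + 1) rs ds

theorem allC_get {c4 : ℕ} {rs : List ℕ} {ds : List PRec} {j : ℕ} (h : allC c4 j rs ds = true)
    {i r : ℕ} (hr : rs[i]? = some r) :
    ∃ d ∈ ds, posN c4 r d.1 = true ∧ itsIn repA repB (j + i) d.1 d.2.1 d.2.2 = true := by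
  induction rs generalizing j ds i with
  | nil => exact absurd hr (by simp)
  | cons a rs ih =>
    cases ds with
    | nil => exact absurd h Bool.false_ne_true
    | cons d ds =>
      have e : allC c4 j (a :: rs) (d :: ds) =
        ((posN c4 a d.1 && itsIn repA repB j d.1 d.2.1 d.2.2) && allC c4 (j + 1) rs ds) := rfl
      rw [e, Bool.and_eq_true, Bool.and_eq_true] at h
      cases i with
      | zero =>
        rw [List.getElem?_cons_zero, Option.some.injEq] at hr
        subst hr
        exact ⟨d, List.mem_cons_self, h.1⟩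
      | succ i =>
        rw [List.getElem?_cons_succ] at hr
        obtain ⟨d', hd', h2⟩ := ih h.2 hr
        refine ⟨d', List.mem_cons_of_mem _ hd', ?_⟩
        rw [show j + (i + 1) = j + 1 + i by omega]
        exact h2

/-- the classes `lo ≤ j < hi` are done -/
def DoneC (chA chB : List Chk) (lo hi : ℕ) : Prop :=
  (∀ j, 212 ≤ j → TableOK repA 4 (PT repsF j) (entS chA j) ∧
    TableOK repB 4 (PT repsF j) (entS chB j)) →
  ∀ j, lo ≤ j → j < hi → ∀ (B : Fam) (x z : Fin 13), QT repsF j B x z → False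

theorem doneC_of {c4 lo n : ℕ} (hlo : 212 ≤ lo) (h4 : c4 = 2 ^ 495) {chA chB : List Chk}
    {ds : List PRec} (h : allC c4 lo ((repsF.drop lo).take n) ds = true)
    (hA : ∀ d ∈ ds, ∀ f ∈ d.2.1, FDead chA f) (hB : ∀ d ∈ ds, ∀ f ∈ d.2.2, FDead chB f) :
    DoneC chA chB lo (lo + n) := by
  intro hT j h1 h2 B x z hq
  obtain ⟨r, hr, -⟩ := hq.cls
  have h3 : ((repsF.drop lo).take n)[j - lo]? = some r := by
    rw [List.getElem?_take_of_lt (by omega), List.getElem?_drop]
    rw [show lo + (j - lo) = j by omega]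
    exact hr
  obtain ⟨d, hd, h5, h6⟩ := allC_get h h3
  rw [show lo + (j - lo) = j by omega] at h6
  obtain ⟨h7, h8⟩ := hT j (by omega)
  exact class_dead h4 hr h5 h6 (hA d hd) (hB d hd) h7 h8 hq

end Pool.Agent.Helper30.TY
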