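import Pool.Agent.Helper63.SIMD.Pack
import Pool.Agent.Helper74.TY.XExt

/-!
MP_8ee768_co, project TH-Y', stage T: the lane test.

`64` lanes of `512` bits. `flg C H M X ys` is a number whose bit `i` is set iff the lane `i` of `X`
meets every word of the list; the words are given replicated in all lanes.
-/

set_option autoImplicit false
set_option exponentiation.threshold 600

namespace Pool.Agent.Helper30.TY

open Pool.Agent.Helper63.SIMD

/-- bit 511 of every lane which meets all words -/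
def yacc (C H X : ℕ) (ys : List ℕ) : ℕ :=
  @List.rec ℕ (fun _ => ℕ) H (fun G _ ih => Nat.land ih (Nat.add (Nat.land X G) C)) ys

/-- one bit per lane -/
def flg (C H M X : ℕ) (ys : List ℕ) : ℕ := Nat.mod (Nat.shiftRight (yacc C H X ys) 511) M

/-- the constants -/
def cC (N : ℕ) : ℕ := (2 ^ 511 - 1) * rep 512 N
def cH (N : ℕ) : ℕ := 2 ^ 511 * rep 512 N

theorem cC_eq (N : ℕ) : cC N = pk 512 N (fun _ => 2 ^ 511 - 1) := mul_rep (by norm_num) _

theorem cH_eq (N : ℕ) : cH N = pk 512 N (fun _ => 2 ^ 511) := mul_rep (by norm_num) _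

/-- the value of a lane -/
def yd (x : ℕ) (gs : List ℕ) : ℕ := if ∀ g ∈ gs, x &&& g ≠ 0 then 1 else 0

theorem yd_le (x : ℕ) (gs : List ℕ) : yd x gs ≤ 1 := by
  unfold yd
  split_ifs <;> omega

theorem two_pow_land {a z : ℕ} (ha : a ≤ 1) (hz : z < 2 ^ 511) :
    2 ^ 511 * a &&& (z + (2 ^ 511 - 1)) = 2 ^ 511 * (if z = 0 then 0 else a) := by
  have hp : (0 : ℕ) < 2 ^ 511 := Nat.two_pow_pos 511
  rcases Nat.le_one_iff_eq_zero_or_eq_one.1 ha with rfl | rfl
  · rw [Nat.mul_zero, Nat.zero_and]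
    split_ifs <;> rfl
  · rw [Nat.mul_one]
    refine Nat.eq_of_testBit_eq fun i => ?_
    rw [Nat.testBit_and, Nat.testBit_two_pow]
    by_cases hi : 511 = i
    · subst hi
      rw [decide_eq_true rfl, Bool.true_and]
      by_cases h0 : z = 0
      · rw [if_pos h0, h0, Nat.zero_add, Nat.mul_zero, Nat.zero_testBit]
        exact Nat.testBit_lt_two_pow (by omega)
      · rw [if_neg h0, Nat.mul_one, Nat.testBit_two_pow_self]
        refine Nat.testBit_of_two_pow_le_and_two_pow_add_one_gt (by omega) ?_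
        rw [pow_succ]
        omega
    · rw [decide_eq_false hi, Bool.false_and]
      by_cases h0 : z = 0
      · rw [if_pos h0, Nat.mul_zero, Nat.zero_testBit]
      · rw [if_neg h0, Nat.mul_one, Nat.testBit_two_pow, decide_eq_false hi]

theorem yacc_eq {N : ℕ} {x : ℕ → ℕ} (hx : ∀ i < N, x i < 2 ^ 511) {gs : List ℕ}
    (hg : ∀ g ∈ gs, g < 2 ^ 511) :
    yacc (cC N) (cH N) (pk 512 N x) (gs.map fun g => g * rep 512 N) =
      pk 512 N (fun i => 2 ^ 511 * yd (x i) gs) := by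
  induction gs with
  | nil =>
    show cH N = _
    rw [cH_eq]
    refine pk_congr fun i _ => ?_
    unfold yd
    rw [if_pos (by simp), Nat.mul_one]
  | cons g gs ih =>
    show yacc (cC N) (cH N) (pk 512 N x) (gs.map fun g => g * rep 512 N) &&&
      ((pk 512 N x &&& (g * rep 512 N)) + cC N) = _
    have hg0 := hg g (List.mem_cons_self)
    have hlt : ∀ {z : ℕ}, z < 2 ^ 511 → z < 2 ^ 512 := fun h =>
      lt_trans h (Nat.pow_lt_pow_right (by norm_num) (by norm_num))
    have hand : ∀ i, x i &&& g < 2 ^ 511 := fun i => lt_of_le_of_lt Nat.and_le_right hg0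
    rw [ih (fun g hg' => hg g (List.mem_cons_of_mem _ hg')), mul_rep (by norm_num), cC_eq,
      pk_land (fun i hi => hlt (hx i hi)) (fun _ _ => hlt hg0), pk_add, pk_land]
    · refine pk_congr fun i _ => ?_
      have h1 := two_pow_land (yd_le (x i) gs) (hand i)
      show 2 ^ 511 * yd (x i) gs &&& ((x i &&& g) + (2 ^ 511 - 1)) = _
      rw [h1]
      congr 1
      unfold yd
      simp only [List.forall_mem_cons]
      by_cases h0 : x i &&& g = 0
      · rw [if_pos h0, if_neg (fun h => h.1 h0)]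
      · rw [if_neg h0]
        by_cases h2 : ∀ a ∈ gs, x i &&& a ≠ 0
        · rw [if_pos h2, if_pos ⟨h0, h2⟩]
        · rw [if_neg h2, if_neg fun h => h2 h.2]
    · intro i _
      have := yd_le (x i) gs
      calc 2 ^ 511 * yd (x i) gs ≤ 2 ^ 511 * 1 := Nat.mul_le_mul_left _ this
        _ < 2 ^ 512 := by norm_num
    · intro i _
      have h1 := hand i
      show (x i &&& g) + (2 ^ 511 - 1) < 2 ^ 512
      rw [show (2 : ℕ) ^ 512 = 2 ^ 511 + 2 ^ 511 by rw [← two_mul, ← pow_succ']]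
      omega

theorem pk_modEq (W N : ℕ) (d : ℕ → ℕ) : pk (W + 1) N d ≡ pk 1 N d [MOD 2 ^ W - 1] := by
  induction N with
  | zero => exact Nat.ModEq.refl _
  | succ N ih =>
    rw [pk_succ, pk_succ]
    refine ih.add (Nat.ModEq.mul_left _ ?_)
    have h1 : 2 ^ W ≡ 1 [MOD 2 ^ W - 1] := by
      have h2 : 2 ^ W = (2 ^ W - 1) + 1 := (Nat.sub_add_cancel Nat.one_le_two_pow).symm
      conv_lhs => rw [h2]
      exact Nat.add_modEq_left
    have h3 : 2 ^ ((W + 1) * N) = (2 ^ W) ^ N * 2 ^ (1 * N) := by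
      rw [← pow_mul, ← pow_add]
      congr 1
      ring
    rw [h3]
    have h4 := (h1.pow N).mul_right (2 ^ (1 * N))
    rw [one_pow, Nat.one_mul] at h4
    simpa only [Nat.one_mul] using h4

/-- THE FLAGS -/
theorem flg_eq {N : ℕ} (hN : N ≤ 64) {x : ℕ → ℕ} (hx : ∀ i < N, x i < 2 ^ 511) {gs : List ℕ}
    (hg : ∀ g ∈ gs, g < 2 ^ 511) :
    flg (cC N) (cH N) (2 ^ 511 - 1) (pk 512 N x) (gs.map fun g => g * rep 512 N) =
      pk 1 N (fun i => yd (x i) gs) := by
  unfold flg
  rw [yacc_eq hx hg]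
  have h1 : Nat.shiftRight (pk 512 N (fun i => 2 ^ 511 * yd (x i) gs)) 511 =
      pk 512 N (fun i => yd (x i) gs) := by
    show pk 512 N (fun i => 2 ^ 511 * yd (x i) gs) >>> 511 = _
    rw [← mul_pk, Nat.shiftRight_eq_div_pow, Nat.mul_div_cancel_left _ (Nat.two_pow_pos _)]
  rw [h1]
  have h2 := pk_modEq 511 N (fun i => yd (x i) gs)
  have h3 : pk 1 N (fun i => yd (x i) gs) < 2 ^ (1 * N) :=
    pk_lt fun i _ => lt_of_le_of_lt (yd_le _ _) (by norm_num)
  have h4 : 2 ^ (1 * N) ≤ 2 ^ 64 := Nat.pow_le_pow_right (by norm_num) (by omega)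
  have h5 : (2 : ℕ) ^ 64 < 2 ^ 511 - 1 := by norm_num
  show pk (511 + 1) N (fun i => yd (x i) gs) % (2 ^ 511 - 1) = _
  rw [h2]
  exact Nat.mod_eq_of_lt (by omega)

/-- a lane which misses some word has its bit zero -/
theorem flg_testBit {N : ℕ} (hN : N ≤ 64) {x : ℕ → ℕ} (hx : ∀ i < N, x i < 2 ^ 511) {gs : List ℕ}
    (hg : ∀ g ∈ gs, g < 2 ^ 511) {i : ℕ} (hi : i < N) {g : ℕ} (hgm : g ∈ gs)
    (h0 : x i &&& g = 0) :
    (flg (cC N) (cH N) (2 ^ 511 - 1) (pk 512 N x) (gs.map fun g => g * rep 512 N)).testBit i =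
      false := by
  rw [flg_eq hN hx hg]
  have h1 : fld 1 (pk 1 N (fun i => yd (x i) gs)) i = yd (x i) gs :=
    fld_pk (fun j _ => lt_of_le_of_lt (yd_le _ _) (by norm_num)) hi
  have h2 : yd (x i) gs = 0 := if_neg fun h => h g hgm h0
  rw [h2] at h1
  unfold fld at h1
  rw [Nat.testBit_eq_decide_div_mod_eq, decide_eq_false_iff_not]
  rw [Nat.one_mul, pow_one] at h1
  omega

end Pool.Agent.Helper30.TY
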