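import Pool.Agent.Helper30.TY.YFilter
import Pool.Agent.Helper30.TY.YLane
import Pool.Agent.Helper63.TY.Comp

/-!
MP_8ee768_co, project TH-Y', stage T: the tile, a list of frames against a list of chunks of
entries.

Frame: `(j, r, xr, ys)` (class, root code, checked word of the centre, masks). Entry: `(k, x)` (class, checked
word). Chunk: `(kmax, entries)`, at most 64 entries. The pair test is a parameter `tp x R e` of
the word of the entry, the data `R = rw r` of the frame and the data `e = ep x` of the entry.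
-/

set_option autoImplicit false
set_option exponentiation.threshold 600

namespace Pool.Agent.Helper30.TY

open Finset
open Pool.Agent.Helper89.CV (OddCover ofMask)
open Pool.Agent.Helper97.CV Pool.Agent.Helper79.CV Pool.Agent.Helper33.TY
open Pool.Agent.Helper63.SIMD
open Pool.Agent.Helper63.TY (Cb Acc)
open Pool.Agent.Helper74.TY (frc frc_eq)

/-- entries of a chunk: class, word, data, power of two -/
inductive EL : Type
  | nil : EL
  | cons (k x v p : ℕ) (t : EL) : EL

/-- frames: class, data, masks -/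
inductive FL : Type
  | nil : FL
  | cons (j R : ℕ) (ys : List ℕ) (t : FL) : FL

def EL.All (P : ℕ → ℕ → ℕ → ℕ → Prop) : EL → Prop
  | .nil => True
  | .cons k x v p t => P k x v p ∧ EL.All P t

def FL.All (P : ℕ → ℕ → List ℕ → Prop) : FL → Prop
  | .nil => True
  | .cons j R ys t => P j R ys ∧ FL.All P t

/-! ## entries -/

def elOf (ep : ℕ → ℕ) : List (ℕ × ℕ) → ℕ → EL
  | [], _ => .nil
  | a :: l, p => .cons a.1 a.2 (ep a.2) p (elOf ep l (p + p))

noncomputable def mkE (ep : ℕ → ℕ) (kmax : ℕ) (l : List (ℕ × ℕ)) : ℕ → (EL → Bool) → Bool :=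
  @List.rec (ℕ × ℕ) (fun _ => ℕ → (EL → Bool) → Bool) (fun _ c => c .nil)
    (fun a _ ih p c => frc a.1 fun k => frc a.2 fun x => @Bool.rec (fun _ => Bool) false
      (frc (ep x) fun v => frc (Nat.add p p) fun p' => ih p' fun t => c (.cons k x v p t))
      (Nat.ble k kmax)) l

theorem mkE_sound {ep : ℕ → ℕ} {kmax : ℕ} {l : List (ℕ × ℕ)} {p : ℕ} {c : EL → Bool}
    (h : mkE ep kmax l p c = true) : (∀ a ∈ l, a.1 ≤ kmax) ∧ c (elOf ep l p) = true := by
  induction l generalizing p c with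
  | nil => exact ⟨by simp, h⟩
  | cons a l ih =>
    have h1 : (frc a.1 fun k => frc a.2 fun x => @Bool.rec (fun _ => Bool) false
      (frc (ep x) fun v => frc (Nat.add p p) fun p' => mkE ep kmax l p' fun t =>
        c (.cons k x v p t)) (Nat.ble k kmax)) = true := h
    simp only [frc_eq] at h1
    by_cases h2 : Nat.ble a.1 kmax = true
    · rw [h2] at h1
      obtain ⟨h3, h4⟩ := ih h1
      exact ⟨List.forall_mem_cons.2 ⟨Nat.ble_eq ▸ h2, h3⟩, h4⟩
    · rw [Bool.not_eq_true] at h2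
      rw [h2] at h1
      exact absurd h1 Bool.false_ne_true

theorem elOf_all {ep : ℕ → ℕ} {l : List (ℕ × ℕ)} {p : ℕ} {P : ℕ → ℕ → ℕ → ℕ → Prop}
    (h : ∀ a ∈ l, ∀ p', P a.1 a.2 (ep a.2) p') : (elOf ep l p).All P := by
  induction l generalizing p with
  | nil => trivial
  | cons a l ih =>
    exact ⟨h a List.mem_cons_self _, ih fun b hb => h b (List.mem_cons_of_mem _ hb)⟩

theorem elOf_get {ep : ℕ → ℕ} {l : List (ℕ × ℕ)} {p i : ℕ} {P : ℕ → ℕ → ℕ → ℕ → Prop}
    (h : (elOf ep l p).All P) (hi : i < l.length) :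
    P l[i].1 l[i].2 (ep l[i].2) (p * 2 ^ i) := by
  induction l generalizing p i with
  | nil => exact absurd hi (by simp)
  | cons a l ih =>
    cases i with
    | zero =>
      rw [pow_zero, Nat.mul_one]
      exact h.1
    | succ i =>
      have h1 := ih (p := p + p) (i := i) h.2 (by simpa using hi)
      have e : p * 2 ^ (i + 1) = (p + p) * 2 ^ i := by
        rw [pow_succ]
        ring
      rw [e]
      exact h1

/-- the packed chunk -/
noncomputable def packX (P : ℕ) (l : EL) : ℕ :=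
  @EL.rec (fun _ => ℕ) (nat_lit 0) (fun _ x _ _ _ ih => Nat.add x (Nat.mul P ih)) l

theorem packX_eq {ep : ℕ → ℕ} {l : List (ℕ × ℕ)} {N p : ℕ} (hl : l.length ≤ N) :
    packX (2 ^ 512) (elOf ep l p) = pk 512 N (fun i => (l.getD i (0, 0)).2) := by
  induction l generalizing N p with
  | nil =>
    have h : pk 512 N (fun i => (([] : List (ℕ × ℕ)).getD i (0, 0)).2) =
        pk 512 N (fun _ => 0) := pk_congr (fun i _ => by simp)
    rw [h]
    show (0 : ℕ) = _
    unfold pk
    simp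
  | cons a l ih =>
    cases N with
    | zero => exact absurd hl (by simp)
    | succ N =>
      rw [List.length_cons] at hl
      rw [pk_cons]
      show a.2 + 2 ^ 512 * packX (2 ^ 512) (elOf ep l (p + p)) = _
      rw [ih (N := N) (by omega), Nat.add_comm]
      rfl

/-! ## the lanes of a frame -/

noncomputable def lanes (tp : ℕ → ℕ → ℕ → Cb) (j R fl : ℕ) (l : EL) : Cb :=
  @EL.rec (fun _ => Cb) (fun s c => c s)
    (fun k x v p _ ih s c => @Bool.rec (fun _ => Bool)
      (@Bool.rec (fun _ => Bool) (tp x R v s fun s' => ih s' c) (ih s c) (Nat.blt k j))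
      (ih s c) (Nat.ble (nat_lit 1) (Nat.land fl p))) l

theorem acc_lanes {tp : ℕ → ℕ → ℕ → Cb} {j R fl : ℕ} {l : EL} {P : ℕ → ℕ → ℕ → ℕ → Prop}
    (h : l.All fun k x v p => Acc (P k x v p) (tp x R v)) :
    Acc (l.All fun k x v p => fl &&& p = 0 → j ≤ k → P k x v p) (lanes tp j R fl l) := by
  induction l with
  | nil => exact fun s _ hs => ⟨trivial, s, hs⟩
  | cons k x v p t ih =>
    intro s c hs
    have ih' := ih h.2
    have hs' : @Bool.rec (fun _ => Bool)
      (@Bool.rec (fun _ => Bool) (tp x R v s fun s' => lanes tp j R fl t s' c)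
        (lanes tp j R fl t s c) (Nat.blt k j))
      (lanes tp j R fl t s c) (Nat.ble 1 (fl &&& p)) = true := hs
    by_cases h1 : Nat.ble 1 (fl &&& p) = true
    · rw [h1] at hs'
      obtain ⟨h2, h3⟩ := ih' s c hs'
      refine ⟨⟨fun h4 => ?_, h2⟩, h3⟩
      rw [h4] at h1
      exact absurd h1 (by decide)
    · rw [Bool.not_eq_true] at h1
      rw [h1] at hs'
      by_cases h2 : Nat.blt k j = true
      · rw [h2] at hs'
        obtain ⟨h3, h4⟩ := ih' s c hs'
        refine ⟨⟨fun _ h5 => ?_, h3⟩, h4⟩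
        rw [Nat.blt_eq] at h2
        omega
      · rw [Bool.not_eq_true] at h2
        rw [h2] at hs'
        obtain ⟨h3, s', h4⟩ := h.1 s _ hs'
        obtain ⟨h5, h6⟩ := ih' s' c h4
        exact ⟨⟨fun _ _ => h3, h5⟩, h6⟩

/-- one frame against one chunk -/
noncomputable def fstep (C H M : ℕ) (tp : ℕ → ℕ → ℕ → Cb) (kmax X : ℕ) (E : EL) (j R : ℕ)
    (ys : List ℕ) : Cb :=
  fun s c => @Bool.rec (fun _ => Bool)
    (frc (flg C H M X ys) fun fl => lanes tp j R fl E s c) (c s) (Nat.blt kmax j)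

theorem acc_fstep {C H M : ℕ} {tp : ℕ → ℕ → ℕ → Cb} {kmax X : ℕ} {E : EL} {j R : ℕ}
    {ys : List ℕ} {P : ℕ → ℕ → ℕ → ℕ → Prop} (h : E.All fun k x v p => Acc (P k x v p) (tp x R v))
    (hk : E.All fun k _ _ _ => k ≤ kmax) :
    Acc (E.All fun k x v p => flg C H M X ys &&& p = 0 → j ≤ k → P k x v p)
      (fstep C H M tp kmax X E j R ys) := by
  intro s c hs
  unfold fstep at hs
  rw [frc_eq] at hs
  by_cases h2 : Nat.blt kmax j = true
  · rw [h2] at hs
    refine ⟨?_, s, hs⟩
    rw [Nat.blt_eq] at h2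
    clear h hs
    induction E with
    | nil => trivial
    | cons k x v p t ih =>
      refine ⟨fun _ h5 => ?_, ih hk.2⟩
      have := hk.1
      omega
  · rw [Bool.not_eq_true] at h2
    rw [h2] at hs
    exact acc_lanes h s c hs

/-! ## frames -/

noncomputable def mkY (U R : ℕ) (ys : List ℕ) : (List ℕ → Bool) → Bool :=
  @List.rec ℕ (fun _ => (List ℕ → Bool) → Bool) (fun c => c [])
    (fun F _ ih c => frc (Nat.mul (Nat.land F U) R) fun G => ih fun t => c (G :: t)) ys

theorem mkY_eq (U R : ℕ) (ys : List ℕ) (c : List ℕ → Bool) :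
    mkY U R ys c = c ((ys.map fun F => Nat.land F U).map fun g => g * R) := by
  induction ys generalizing c with
  | nil => rfl
  | cons F ys ih =>
    have h1 : mkY U R (F :: ys) c =
      (frc (Nat.mul (Nat.land F U) R) fun G => mkY U R ys fun t => c (G :: t)) := rfl
    rw [h1, frc_eq, ih]
    rfl

/-- frame: class, root code, checked word of the centre, masks -/
abbrev FRec := ℕ × ℕ × ℕ × List ℕ

noncomputable def mkF (rw : ℕ → ℕ) (TM R : ℕ) (frs : List FRec) : (FL → Bool) → Bool :=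
  @List.rec FRec (fun _ => (FL → Bool) → Bool) (fun c => c .nil)
    (fun a _ ih c => frc a.1 fun j => frc (Nat.lor a.2.2.1 TM) fun U =>
      frc (rw a.2.1) fun w => mkY U R a.2.2.2 fun ys => ih fun t => c (.cons j w ys t)) frs

def flOf (rw : ℕ → ℕ) (TM R : ℕ) : List FRec → FL
  | [] => .nil
  | a :: l => .cons a.1 (rw a.2.1)
      ((a.2.2.2.map fun F => Nat.land F (Nat.lor a.2.2.1 TM)).map fun g => g * R) (flOf rw TM R l)

theorem mkF_eq (rw : ℕ → ℕ) (TM R : ℕ) (frs : List FRec) (c : FL → Bool) :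
    mkF rw TM R frs c = c (flOf rw TM R frs) := by
  induction frs generalizing c with
  | nil => rfl
  | cons a frs ih =>
    have h1 : mkF rw TM R (a :: frs) c =
      (frc a.1 fun j => frc (Nat.lor a.2.2.1 TM) fun U =>
      frc (rw a.2.1) fun w => mkY U R a.2.2.2 fun ys =>
        mkF rw TM R frs fun t => c (.cons j w ys t)) := rfl
    rw [h1]
    simp only [frc_eq]
    rw [mkY_eq, ih]
    rfl

theorem flOf_all {rw : ℕ → ℕ} {TM R : ℕ} {frs : List FRec} {P : FRec → ℕ → ℕ → List ℕ → Prop}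
    (h : ∀ a ∈ frs, P a a.1 (rw a.2.1)
      ((a.2.2.2.map fun F => Nat.land F (Nat.lor a.2.2.1 TM)).map fun g => g * R)) :
    (flOf rw TM R frs).All fun j w ys => ∃ a ∈ frs, P a j w ys := by
  induction frs with
  | nil => trivial
  | cons a frs ih =>
    refine ⟨⟨a, List.mem_cons_self, h a List.mem_cons_self⟩, ?_⟩
    have h1 := ih fun b hb => h b (List.mem_cons_of_mem _ hb)
    generalize flOf rw TM R frs = l at h1
    induction l with
    | nil => trivial
    | cons j w ys t ih2 =>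
      obtain ⟨⟨b, hb, h2⟩, h3⟩ := h1
      exact ⟨⟨b, List.mem_cons_of_mem _ hb, h2⟩, ih2 h3⟩

theorem flOf_get {rw : ℕ → ℕ} {TM R : ℕ} {frs : List FRec} {P : ℕ → ℕ → List ℕ → Prop}
    (h : (flOf rw TM R frs).All P) : ∀ a ∈ frs, P a.1 (rw a.2.1)
      ((a.2.2.2.map fun F => Nat.land F (Nat.lor a.2.2.1 TM)).map fun g => g * R) := by
  induction frs with
  | nil => simp
  | cons a frs ih => exact List.forall_mem_cons.2 ⟨h.1, ih h.2⟩

/-- the frames one after another, the state is evaluated after each frame -/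
noncomputable def loopF (f : ℕ → ℕ → List ℕ → Cb) (l : FL) : Cb :=
  @FL.rec (fun _ => Cb) (fun s c => c s)
    (fun j R ys _ ih s c => f j R ys s fun s' => frc s' fun s'' => ih s'' c) l

theorem acc_loopF {P : ℕ → ℕ → List ℕ → Prop} {f : ℕ → ℕ → List ℕ → Cb} {l : FL}
    (h : l.All fun j R ys => Acc (P j R ys) (f j R ys)) : Acc (l.All P) (loopF f l) := by
  induction l with
  | nil => exact fun s _ hs => ⟨trivial, s, hs⟩
  | cons j R ys t ih =>
    intro s c hs
    have hs' : (f j R ys s fun s' => frc s' fun s'' => loopF f t s'' c) = true := hs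
    obtain ⟨h1, s', h2⟩ := h.1 s _ hs'
    rw [frc_eq] at h2
    obtain ⟨h3, h4⟩ := ih h.2 s' c h2
    exact ⟨⟨h1, h3⟩, h4⟩

/-! ## the tile -/

def allL {α : Type} (f : α → Bool) (l : List α) : Bool :=
  @List.rec α (fun _ => Bool) true (fun a _ ih => @Bool.rec (fun _ => Bool) false ih (f a)) l

theorem allL_iff {α : Type} {f : α → Bool} {l : List α} (h : allL f l = true) :
    ∀ a ∈ l, f a = true := by
  induction l with
  | nil => simp
  | cons a l ih =>
    have h1 : @Bool.rec (fun _ => Bool) false (allL f l) (f a) = true := h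
    by_cases h2 : f a = true
    · rw [h2] at h1
      exact List.forall_mem_cons.2 ⟨h2, ih h1⟩
    · rw [Bool.not_eq_true] at h2
      rw [h2] at h1
      exact absurd h1 Bool.false_ne_true

/-- a chunk with its stream -/
noncomputable def chkCh (C H M P : ℕ) (tp : ℕ → ℕ → ℕ → Cb) (ep : ℕ → ℕ) (L : FL)
    (a : (ℕ × List (ℕ × ℕ)) × ℕ) : Bool :=
  mkE ep a.1.1 a.1.2 (nat_lit 1) fun E => frc (packX P E) fun X =>
    frc a.2 fun s => loopF (fstep C H M tp a.1.1 X E) L s fun _ => true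

/-- THE TILE -/
noncomputable def tile (tp : ℕ → ℕ → ℕ → Cb) (ep rw : ℕ → ℕ) (frs : List FRec)
    (chs : List ((ℕ × List (ℕ × ℕ)) × ℕ)) : Bool :=
  frc (cC 64) fun C => frc (cH 64) fun H => frc (2 ^ 511 - 1) fun M => frc (2 ^ 512) fun P =>
    frc (rep 512 64) fun R => frc topM fun TM => mkF rw TM R frs fun L =>
      allL (chkCh C H M P tp ep L) chs

/-- correctness of a frame -/
def FrOK (T : ℕ) (f : FRec) : Prop :=
  f.2.1 < 2 ^ 495 ∧ f.2.1 >>> 330 = T ∧ eP f.2.2.1 = eP f.2.1 ∧ Half T f.2.2.1 ∧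
    f.2.2.1 < 2 ^ 506 ∧ ∀ F ∈ yTab, Nat.land (Nat.land f.2.2.1 topM) F = 0 → F ∈ f.2.2.2

/-- correctness of an entry -/
def EnOK (T : ℕ) (a : ℕ × ℕ) : Prop := Half T a.2 ∧ a.2 < 2 ^ 506

/-- the pair is dead -/
def Dead2 (r x : ℕ) : Prop :=
  ∀ B : Fam, T0 B → link B 12 = fam 12 4 r → lane B 11 = cone 11 (fam 11 4 (eP x)) → False

theorem eP_eq_mod (x : ℕ) : eP x = x % 2 ^ 330 := Nat.and_two_pow_sub_one_eq_mod _ _

/-- SOUNDNESS OF THE TILE -/
theorem tile_sound {T : ℕ} (hb : 2 ≤ cnt (fam 11 3 T) {9, 10}) {tp : ℕ → ℕ → ℕ → Cb}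
    {ep rw : ℕ → ℕ}
    (htp : ∀ r x, r < 2 ^ 495 → r >>> 330 = T → Acc (Dead2 r x) (tp x (rw r) (ep x)))
    {frs : List FRec} {chs : List ((ℕ × List (ℕ × ℕ)) × ℕ)}
    (hF : ∀ f ∈ frs, FrOK T f)
    (hX : ∀ ch ∈ chs, ch.1.2.length ≤ 64 ∧ ∀ a ∈ ch.1.2, EnOK T a)
    (h : tile tp ep rw frs chs = true) :
    ∀ f ∈ frs, ∀ ch ∈ chs, ∀ a ∈ ch.1.2, f.1 ≤ a.1 → Dead2 f.2.1 a.2 := by
  intro f hf ch hch a ha hk B hB h12 h11
  unfold tile at h
  simp only [frc_eq] at h
  rw [mkF_eq] at h
  have h1 := allL_iff h ch hch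
  unfold chkCh at h1
  obtain ⟨hkm, h2⟩ := mkE_sound h1
  simp only [frc_eq] at h2
  obtain ⟨hlen, hen⟩ := hX ch hch
  rw [packX_eq hlen] at h2
  obtain ⟨hr, hrT, hre, hhr, hxr, hys⟩ := hF f hf
  -- the steps: the frames with the data of `f` prove the claim of `f`
  have hacc : (flOf rw topM (rep 512 64) frs).All fun j w ys =>
      Acc ((elOf ep ch.1.2 1).All fun k x _ p => flg (cC 64) (cH 64) (2 ^ 511 - 1)
        (pk 512 64 fun i => (ch.1.2.getD i (0, 0)).2) ys &&& p = 0 → j ≤ k →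
          w = rw f.2.1 → Dead2 f.2.1 x)
        (fstep (cC 64) (cH 64) (2 ^ 511 - 1) tp ch.1.1
          (pk 512 64 fun i => (ch.1.2.getD i (0, 0)).2) (elOf ep ch.1.2 1) j w ys) := by
    have h3 := flOf_all (rw := rw) (TM := topM) (R := rep 512 64) (frs := frs)
      (P := fun a j w ys => j = a.1 ∧ w = rw a.2.1) fun a _ => ⟨rfl, rfl⟩
    generalize flOf rw topM (rep 512 64) frs = l at h3
    induction l with
    | nil => trivial
    | cons j w ys t ih =>
      obtain ⟨⟨b, hb2, -, hw⟩, h3'⟩ := h3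
      refine ⟨acc_fstep (P := fun _ x _ _ => w = rw f.2.1 → Dead2 f.2.1 x) ?_ ?_, ih h3'⟩
      · refine elOf_all fun a' _ _ => ?_
        obtain ⟨hbr, hbT, -⟩ := hF b hb2
        by_cases hwf : w = rw f.2.1
        · have h4 := htp f.2.1 a'.2 hr hrT
          rw [hwf]
          exact fun s c hs => ⟨fun _ => (h4 s c hs).1, (h4 s c hs).2⟩
        · have h4 := htp b.2.1 a'.2 hbr hbT
          rw [← hw] at h4
          exact fun s c hs => ⟨fun h5 => absurd h5 hwf, (h4 s c hs).2⟩
      · exact elOf_all fun a' ha' _ => hkm a' ha'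
  obtain ⟨h3, -⟩ := acc_loopF hacc _ _ h2
  -- the lane
  obtain ⟨i, hi, rfl⟩ := List.mem_iff_getElem.1 ha
  have h4 := elOf_get (flOf_get h3 f hf) hi ?_ hk rfl
  · exact h4 B hB h12 h11
  · -- the flag
    have hT : link (link B 12) 11 = fam 11 3 T := by
      rw [h12, ← hrT]
      exact link_fam_last 11 3 _ hr
    have hE : outer B 11 12 = fam 11 4 (eP (ch.1.2[i]).2) :=
      outer_of_lane (fun s hs => notMem_of_fam11 hs) h11
    have hR : outer B 12 11 = fam 11 4 (eP f.2.2.1) := by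
      rw [hre, eP_eq_mod]
      unfold outer
      rw [h12]
      exact filter_notMem_fam hr
    obtain ⟨hha, hxl⟩ := hen _ ha
    obtain ⟨F, hFt, hF0, hF1⟩ := exists_mask hB hhr hha hxl hxr hT hb hE hR
    have hgm : Nat.land F (um f.2.2.1) ∈
        f.2.2.2.map fun F => Nat.land F (Nat.lor f.2.2.1 topM) :=
      List.mem_map.2 ⟨F, hys F hFt hF0, rfl⟩
    have hum : um f.2.2.1 < 2 ^ 511 := by
      refine Nat.or_lt_two_pow (lt_trans hxr (Nat.pow_lt_pow_right (by norm_num) (by norm_num))) ?_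
      decide +kernel
    have hg : ∀ g ∈ f.2.2.2.map fun F => Nat.land F (Nat.lor f.2.2.1 topM), g < 2 ^ 511 := by
      intro g hg
      rw [List.mem_map] at hg
      obtain ⟨F', -, rfl⟩ := hg
      exact lt_of_le_of_lt Nat.and_le_right hum
    have hx : ∀ i' < 64, (ch.1.2.getD i' (0, 0)).2 < 2 ^ 511 := by
      intro i' _
      by_cases h5 : i' < ch.1.2.length
      · rw [List.getD_eq_getElem _ _ h5]
        exact lt_trans (hen _ (List.getElem_mem h5)).2
          (Nat.pow_lt_pow_right (by norm_num) (by norm_num))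
      · rw [List.getD_eq_default _ _ (by omega)]
        exact Nat.two_pow_pos _
    have h5 := flg_testBit (N := 64) (le_refl _) hx hg (i := i) (by omega) hgm (by
      rw [List.getD_eq_getElem _ _ hi]
      exact hF1)
    refine Nat.eq_of_testBit_eq fun n => ?_
    rw [Nat.testBit_and, Nat.one_mul, Nat.testBit_two_pow, Nat.zero_testBit]
    by_cases h6 : i = n
    · rw [← h6, h5, Bool.false_and]
    · rw [decide_eq_false h6, Bool.and_false]

end Pool.Agent.Helper30.TY
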