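import Pool.Agent.Helper91.TY.AdjTab
import Pool.Agent.Helper44.TY.TabA
import Pool.Agent.Helper30.TY.Tile

/-!
MP_8ee768_co, project TH-Y', stage T: the full table of the entries from the table modulo
automorphisms.
-/

set_option autoImplicit false
set_option exponentiation.threshold 600

namespace Pool.Agent.Helper30.TY

open Finset
open Pool.Agent.Helper89.CV (OddCover ofMask)
open Pool.Agent.Helper97.CV Pool.Agent.Helper79.CV Pool.Agent.Helper33.CV
open Pool.Agent.Helper91.TY hiding frc frc_eq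
open Pool.Agent.Helper44.TY (autSet Rec listOf mem_listOf)
open Pool.Agent.Helper82.TY (below)
open Pool.Agent.Helper74.TY (frc frc_eq)

/-! ## words -/

/-- the permutation of a word -/
def pW : List ℕ → Equiv.Perm (Fin 13)
  | [] => 1
  | a :: w => pW w * swp a

/-- the program of a word -/
def exW (w : List ℕ) : List (ℕ × ℕ) := w.flatMap tab4

theorem app_append (l l' : List (ℕ × ℕ)) (x : ℕ) : app (l ++ l') x = app l' (app l x) := by
  induction l generalizing x with
  | nil => rfl
  | cons p l ih => exact ih _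

theorem enc_pW {w : List ℕ} (hw : ∀ a ∈ w, a < 10) (D : Finset (Finset (Fin 13))) :
    enc 11 4 (mapF (pW w) D) = app (exW w) (enc 11 4 D) := by
  induction w generalizing D with
  | nil =>
    show enc 11 4 (mapF 1 D) = enc 11 4 D
    rw [mapF_one]
  | cons a w ih =>
    have h1 : exW (a :: w) = tab4 a ++ exW w := by
      unfold exW
      rw [List.flatMap_cons]
    rw [h1, app_append, ← enc_swp (by norm_num) (chk_tab4 a (hw a List.mem_cons_self)) D,
      ← ih (fun b hb => hw b (List.mem_cons_of_mem _ hb))]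
    show enc 11 4 (mapF (pW w * swp a) D) = _
    rw [mapF_mul]

theorem valL_inj {σ τ : Equiv.Perm (Fin 13)} (h : valL σ = valL τ) : σ = τ := by
  unfold valL at h
  rw [List.ofFn_inj] at h
  ext i
  exact congrFun h i

theorem mapF_fam_pW {w : List ℕ} (hw : ∀ a ∈ w, a < 10) {e : ℕ} (he : e < 2 ^ 330)
    (hk : Keeps 11 (pW w)) :
    mapF (pW w) (fam 11 4 e) = fam 11 4 (app (exW w) e) := by
  have ec : Nat.choose 11 4 = 330 := by decide
  have h1 := enc_pW hw (fam 11 4 e)
  rw [enc_fam (by norm_num) (by rw [ec]; exact he)] at h1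
  rw [← h1, fam_enc (by norm_num)]
  intro s hs
  rw [mem_mapF'] at hs
  have h2 := sub_of_mem_fam (by norm_num) hs
  refine ⟨?_, ?_⟩
  · rw [mk_lt_iff]
    intro a ha
    have h3 : (pW w).symm a ∈ mapS (pW w).symm s := by
      rw [mem_mapS]
      exact ha
    have h4 := hk _ (mk_lt_iff.1 h2.1 _ h3)
    rwa [Equiv.apply_symm_apply] at h4
  · rw [← card_mapS (pW w).symm s]
    exact h2.2

/-! ## the check of a class -/

/-- chunk -/
abbrev Chk := ℕ × List (ℕ × ℕ)

/-- the entry `(k, im)` is in the chunks -/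
def inCh (c3 k im : ℕ) (chs : List Chk) : Bool :=
  chs.any fun ch => ch.2.any fun a => Nat.beq (Nat.mod a.2 c3) im && Nat.beq a.1 k

/-- all images of the entries `es` are in the chunks -/
def covK (c3 : ℕ) (ps : List (List (ℕ × ℕ))) (k : ℕ) (es : List ℕ) (chs : List Chk) : Bool :=
  es.all fun e => Nat.blt e c3 && ps.all fun p => frc (app p e) fun im => inCh c3 k im chs

theorem covK_sound {c3 : ℕ} (h3 : c3 = 2 ^ 330) {ws : List (List ℕ)} {k : ℕ} {es : List ℕ}
    {chs : List Chk} (hw : ∀ w ∈ ws, ∀ a ∈ w, a < 10)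
    (h : covK c3 (ws.map exW) k es chs = true) {w : List ℕ} (hws : w ∈ ws)
    (hk : Keeps 11 (pW w)) {e : ℕ} (he : e ∈ es) :
    ∃ ch ∈ chs, ∃ a ∈ ch.2, a.1 = k ∧ mapF (pW w) (fam 11 4 e) = fam 11 4 (eP a.2) := by
  unfold covK at h
  rw [List.all_eq_true] at h
  have h1 := h e he
  rw [Bool.and_eq_true, Nat.blt_eq, List.all_eq_true, h3] at h1
  have h2 := h1.2 _ (List.mem_map_of_mem hws)
  rw [frc_eq] at h2
  unfold inCh at h2
  rw [List.any_eq_true] at h2
  obtain ⟨ch, hch, h4⟩ := h2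
  rw [List.any_eq_true] at h4
  obtain ⟨a, ha, h5⟩ := h4
  rw [Bool.and_eq_true, Nat.beq_eq, Nat.beq_eq] at h5
  refine ⟨ch, hch, a, ha, h5.2, ?_⟩
  rw [mapF_fam_pW (hw w hws) h1.1 hk, ← h5.1, eP_eq_mod]
  rfl

/-- classes from `k` on: records and chunks of each class -/
def covAll (c3 : ℕ) (ps : List (List (ℕ × ℕ))) : ℕ → List (List ℕ) → List (List Chk) → Bool
  | _, [], _ => true
  | _, _ :: _, [] => false
  | k, es :: ess, c :: cs => covK c3 ps k es c && covAll c3 ps (k + 1) ess cs

theorem covAll_get {c3 : ℕ} {ps : List (List (ℕ × ℕ))} {k : ℕ} {ess : List (List ℕ)}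
    {cs : List (List Chk)} (h : covAll c3 ps k ess cs = true) {i : ℕ} {es : List ℕ}
    (hi : ess[i]? = some es) : ∃ c ∈ cs, covK c3 ps (k + i) es c = true := by
  induction ess generalizing k cs i with
  | nil => exact absurd hi (by simp)
  | cons es' ess ih =>
    cases cs with
    | nil => exact absurd h Bool.false_ne_true
    | cons c cs =>
      have e : covAll c3 ps k (es' :: ess) (c :: cs) =
        (covK c3 ps k es' c && covAll c3 ps (k + 1) ess cs) := rfl
      rw [e, Bool.and_eq_true] at h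
      cases i with
      | zero =>
        rw [List.getElem?_cons_zero, Option.some.injEq] at hi
        subst hi
        exact ⟨c, List.mem_cons_self, h.1⟩
      | succ i =>
        rw [List.getElem?_cons_succ] at hi
        obtain ⟨c', hc', h2⟩ := ih h.2 hi
        refine ⟨c', List.mem_cons_of_mem _ hc', ?_⟩
        rw [show k + (i + 1) = k + 1 + i by omega]
        exact h2

/-! ## the table -/

/-- the sets of the entries of the chunks with class at least `j` -/
def entS (chs : List Chk) (j : ℕ) : Set (Finset (Finset (Fin 13))) :=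
  {E | ∃ ch ∈ chs, ∃ a ∈ ch.2, j ≤ a.1 ∧ E = fam 11 4 (eP a.2)}

theorem tableOK_of_cov {reps : List ℕ} {T j : ℕ} {auts : List (List ℕ)}
    {ws : List (List ℕ)} {l : List (ℕ × ℕ)} {chs : List Chk}
    (hT : TabA reps T 4 (fun _ _ => True) (autSet auts) l)
    (hcov : ∀ k e, (k, e) ∈ l → j ≤ k → ∀ w ∈ ws, ∃ ch ∈ chs, ∃ a ∈ ch.2,
      a.1 = k ∧ mapF (pW w) (fam 11 4 e) = fam 11 4 (eP a.2))
    (hws : ∀ v ∈ auts, ∃ w ∈ ws, valL (pW w) = v) :
    TableOK T 4 (fun D => ∀ i < j, ¬ Cls reps i D) (entS chs j) := by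
  intro D h1 h2 h3 h4
  obtain ⟨k, e, h5, α, hα, hf, h6, h7⟩ := hT D h1 h2 h3 trivial
  have hjk : j ≤ k := by
    by_contra h8
    exact h4 k (by omega) h6
  obtain ⟨w, hw, h8⟩ := hws _ hα.2
  have h9 := valL_inj h8
  obtain ⟨ch, hch, a, ha, h10, h11⟩ := hcov k e h5 hjk w hw
  refine ⟨ch, hch, a, ha, by omega, ?_⟩
  rw [← h11, h9]
  have h0 : ∀ s ∈ fam 11 3 T, (11 : Fin 13) ∉ s := fun s hs => notMem_fam (k := 3) 11 hs
  have h12 : (fun s : Finset (Fin 13) => (11 : Fin 13) ∉ s) =
      fun s => (11 : Fin 13) ∉ mapS α.symm s := by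
    funext s
    rw [mem_mapS', Equiv.symm_symm, hf.1]
  ext s
  rw [mem_filter, h7, mem_mapF', mem_mapF']
  unfold ent
  rw [mem_union, mem_cone h0]
  have h13 : ((11 : Fin 13) ∈ mapS α.symm s) ↔ (11 : Fin 13) ∈ s := by
    rw [mem_mapS', Equiv.symm_symm, hf.1]
  constructor
  · rintro ⟨h14 | h14, h15⟩
    · exact absurd (h13.1 h14.1) h15
    · exact h14
  · intro h14
    refine ⟨Or.inr h14, fun h15 => ?_⟩
    exact notMem_fam (k := 4) 11 h14 (h13.2 h15)

end Pool.Agent.Helper30.TY
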