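import Pool.Agent.Helper30.TY.Tile
import Pool.Agent.Helper33.TY.EWord
import Pool.Agent.Helper64.TY.TCtx

/-!
MP_8ee768_co, project TH-Y', stage T: the pair test of the tile from a callback on the pair word.
-/

set_option autoImplicit false
set_option exponentiation.threshold 600

namespace Pool.Agent.Helper30.TY

open Finset
open Pool.Agent.Helper89.CV (OddCover ofMask)
open Pool.Agent.Helper97.CV Pool.Agent.Helper79.CV Pool.Agent.Helper33.TY
open Pool.Agent.Helper25.TY (R11 mem_R11)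
open Pool.Agent.Helper63.TY (Cb Acc)
open Pool.Agent.Helper74.TY (frc frc_eq)
open Pool.Agent.Helper64.TY.K7 (TH)

/-- the context of the kill test -/
theorem T0.th {B : Fam} (h : T0 B) : TH B := by
  refine ⟨h.odd, h.le, ?_, ?_, ?_⟩
  · intro u hu
    rcases h.other hu with h1 | h1 <;> omega
  · intro u hu h1
    refine (h.nb u hu ?_).ge
    omega
  · obtain ⟨Y, hY⟩ := h.six
    have hYR : Y ⊆ R11 := by
      intro u hu
      rw [mem_R11]
      by_contra hcon
      have h3 : ∀ u : Fin 13, ¬ u.val < 11 → u = 12 ∨ u = 11 := by decide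
      rcases h3 u hcon with rfl | rfl
      · exact hY.nx hu
      · exact hY.nz hu
    have h4 : (R11.filter fun u => 8 ≤ MM B u) ⊆ R11 \ Y := by
      intro u hu
      rw [mem_filter] at hu
      rw [mem_sdiff]
      refine ⟨hu.1, fun h5 => ?_⟩
      have := hY.six u h5
      omega
    refine (card_le_card h4).trans ?_
    rw [card_sdiff_of_subset hYR, hY.card]
    decide

/-- the pair word -/
theorem pairK_eq_qf {B : Fam} (hB : OddCover B) {r e : ℕ} (hr : r < 2 ^ 495)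
    (he : e < 2 ^ 330) (h12 : link B 12 = fam 12 4 r) (h11 : lane B 11 = cone 11 (fam 11 4 e)) :
    pairK (rootK (tW (r >>> 330)) (degK (tW (r >>> 330))) r) (tW (r >>> 330))
      (degK (tW (r >>> 330))) e = bw (qf B fun _ => 0) := by
  have hT : link (link B 12) 11 = fam 11 3 (r >>> 330) := by
    rw [h12]
    exact link_fam_last 11 3 r hr
  have hX : outer B 12 11 = fam 11 4 (r % 2 ^ 330) := by
    unfold outer
    rw [h12]
    exact filter_notMem_fam hr
  have hY : outer B 11 12 = fam 11 4 e := outer_of_lane (fun s hs => notMem_of_fam11 hs) h11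
  have h := pairQ_eq hB
  rw [hT, hX, hY, ← tW_eq, ← eW_eq he, ← eW_eq (Nat.mod_lt _ (Nat.two_pow_pos 330))] at h
  rw [pairK_eq, rootK_eq, degK_eq]
  exact h

/-- the pair test: the sum of the two words is the pair word -/
def tpOf (cb : ℕ → Cb) (_x R e : ℕ) : Cb := fun s c => frc (Nat.add R e) fun Q => cb Q s c

theorem acc_tpOf {T T8 DT : ℕ} (h8 : T8 = tW T) (hD : DT = degK (tW T)) {cb : ℕ → Cb}
    (hcb : ∀ (Q : ℕ) (C : Fam → Prop), (∀ B, C B → TH B ∧ Q = bw (qf B fun _ => 0)) →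
      Acc (∀ B, C B → False) (cb Q)) (r x : ℕ) (hr : r < 2 ^ 495) (hrT : r >>> 330 = T) :
    Acc (Dead2 r x) (tpOf cb x (rootK T8 DT r) (eH T8 DT x)) := by
  intro s c hs
  unfold tpOf at hs
  rw [frc_eq] at hs
  have h1 := hcb _ (fun B => T0 B ∧ link B 12 = fam 12 4 r ∧
    lane B 11 = cone 11 (fam 11 4 (eP x))) (fun B hB => ⟨hB.1.th, ?_⟩) s c hs
  · exact ⟨fun B h2 h3 h4 => h1.1 B ⟨h2, h3, h4⟩, h1.2⟩
  · have h2 := pairK_eq_qf hB.1.odd (e := eP x) hr (by
      rw [eP_eq_mod]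
      exact Nat.mod_lt _ (Nat.two_pow_pos 330)) hB.2.1 hB.2.2
    rw [hrT, ← hD, ← h8] at h2
    rw [← h2, eP_eq_mod]
    unfold pairK eH
    rw [c330_eq]
    rfl

/-- SOUNDNESS OF THE TILE with the words of helper33 -/
theorem tile_sound' {T T8 DT : ℕ} (hb : 2 ≤ cnt (fam 11 3 T) {9, 10}) (h8 : T8 = tW T)
    (hD : DT = degK (tW T)) {cb : ℕ → Cb}
    (hcb : ∀ (Q : ℕ) (C : Fam → Prop), (∀ B, C B → TH B ∧ Q = bw (qf B fun _ => 0)) →
      Acc (∀ B, C B → False) (cb Q))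
    {frs : List FRec} {chs : List ((ℕ × List (ℕ × ℕ)) × ℕ)}
    (hF : ∀ f ∈ frs, FrOK T f)
    (hX : ∀ ch ∈ chs, ch.1.2.length ≤ 64 ∧ ∀ a ∈ ch.1.2, EnOK T a)
    (h : tile (tpOf cb) (eH T8 DT) (rootK T8 DT) frs chs = true) :
    ∀ f ∈ frs, ∀ ch ∈ chs, ∀ a ∈ ch.1.2, f.1 ≤ a.1 → Dead2 f.2.1 a.2 :=
  tile_sound hb (fun r x hr hrT => acc_tpOf h8 hD hcb r x hr hrT) hF hX h

end Pool.Agent.Helper30.TY
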