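import Pool.Agent.Helper30.TY.Half
import Pool.Agent.Helper30.TY.TDriver

/-!
MP_8ee768_co, project TH-Y', stage T: the filter by the four points with `MM = 6`.

`T0 B`: the frame form of the configuration. If the words `xr` (of the centre `12`) and `x` (of
`11`) are correct, some mask `F` of the table misses the excluded part of `xr` and the part of `x`
below the mask `um xr`.
-/

set_option autoImplicit false
set_option exponentiation.threshold 600

namespace Pool.Agent.Helper30.TY

open Finset
open Pool.Agent.Helper89.CV (OddCover ofMask)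
open Pool.Agent.Helper97.CV Pool.Agent.Helper79.CV Pool.Agent.Helper33.TY
open Pool.Agent.Helper25.TY (R11 mem_R11)
open Pool.Agent.Helper82.TY (Best)

/-- stage T in the frame `12, 11` -/
structure T0 (B : Fam) : Prop where
  odd : OddCover B
  le : B.card ≤ 157
  hx : MM B 12 = 4
  hz : MM B 11 = 4
  six : ∃ Y, Six B 12 11 Y
  nb : ∀ u : Fin 13, u.val < 11 → (1 ≤ mm B 12 u ∨ 1 ≤ mm B 11 u) → MM B u = 8

theorem QT.t0 {reps : List ℕ} {j : ℕ} {B : Fam} (h : QT reps j B 12 11) : T0 B where
  odd := h.best.odd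
  le := h.best.le
  hx := h.hx
  hz := h.hz
  six := h.six
  nb := by
    intro u hu h1
    have h12 : (12 : Fin 13) ≠ u := by
      rintro rfl
      exact absurd hu (by decide)
    have h11 : (11 : Fin 13) ≠ u := by
      rintro rfl
      exact absurd hu (by decide)
    rcases h1 with h1 | h1
    · exact h.heavy (Or.inl rfl) h12 h1
    · exact h.heavy (Or.inr rfl) h11 h1

theorem T0.other {B : Fam} (h : T0 B) {u : Fin 13} (hu : u.val < 11) :
    MM B u = 6 ∨ MM B u = 8 := by
  obtain ⟨Y, hY⟩ := h.six
  by_cases h1 : u ∈ Y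
  · exact Or.inl (hY.six u h1)
  · refine Or.inr (hY.eight u ?_ ?_ h1)
    · rintro rfl
      exact absurd hu (by decide)
    · rintro rfl
      exact absurd hu (by decide)

/-! ## the masks -/

/-- the bits `330, .., 505` -/
def topM : ℕ := 2 ^ 506 - 2 ^ 330

/-- the mask of a centre word: its quads, all triples and points -/
def um (xr : ℕ) : ℕ := Nat.lor xr topM

theorem testBit_topM (i : ℕ) : topM.testBit i = decide (330 ≤ i ∧ i < 506) := by
  have h : topM = 2 ^ 330 * (2 ^ 176 - 1) := by decide +kernel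
  rw [h, Nat.testBit_two_pow_mul, Nat.testBit_two_pow_sub_one, Bool.eq_iff_iff,
    Bool.and_eq_true, decide_eq_true_eq, decide_eq_true_eq, decide_eq_true_eq]
  omega

theorem mem_fam_of_testBit {n k N i : ℕ} (hi : i < (L n k).length) (h : N.testBit i = true) :
    ofMask (L n k)[i] ∈ fam n k N := by
  rw [mem_fam]
  exact ⟨i, hi, h, rfl⟩

theorem eP_testBit {x i : ℕ} (hi : i < 330) : (eP x).testBit i = x.testBit i := by
  unfold eP
  rw [Nat.testBit_and, Nat.testBit_two_pow_sub_one, decide_eq_true hi, Bool.and_true]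

theorem bP_testBit {x i : ℕ} (hi : i < 165) : (bP x).testBit i = x.testBit (330 + i) := by
  unfold bP
  rw [Nat.testBit_and, Nat.testBit_shiftRight, Nat.testBit_two_pow_sub_one, decide_eq_true hi,
    Bool.and_true]

/-- a bad quad through one special point -/
theorem inter_special {Y t : Finset (Fin 13)} {p p' : Fin 13} (h : Spec p p') (ht : t ⊆ R11) :
    (insert p t ∩ insert 12 (insert 11 Y)).card = 1 + (t ∩ Y).card ∨ p ∈ Y := by
  by_cases hp : p ∈ Y
  · exact Or.inr hp
  · refine Or.inl ?_
    have e : insert p t ∩ insert 12 (insert 11 Y) = insert p (t ∩ Y) := by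
      ext a
      simp only [mem_inter, mem_insert]
      constructor
      · rintro ⟨h1 | h1, h2⟩
        · exact Or.inl h1
        · have h3 := mem_R11.1 (ht h1)
          rcases h2 with rfl | rfl | h2
          · exact absurd h3 (by decide)
          · exact absurd h3 (by decide)
          · exact Or.inr ⟨h1, h2⟩
      · rintro (rfl | ⟨h1, h2⟩)
        · refine ⟨Or.inl rfl, ?_⟩
          rcases h with ⟨rfl, -⟩ | ⟨rfl, -⟩
          · exact Or.inl rfl
          · exact Or.inr (Or.inl rfl)
        · exact ⟨Or.inr h1, Or.inr (Or.inr h2)⟩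
    rw [e, card_insert_of_notMem, Nat.add_comm]
    exact fun h1 => hp (mem_inter.1 h1).2

theorem inter_plain {Y q : Finset (Fin 13)} (hq : q ⊆ R11) :
    q ∩ insert 12 (insert 11 Y) = q ∩ Y := by
  ext a
  simp only [mem_inter, mem_insert]
  constructor
  · rintro ⟨h1, h2⟩
    have h3 := mem_R11.1 (hq h1)
    rcases h2 with rfl | rfl | h2
    · exact absurd h3 (by decide)
    · exact absurd h3 (by decide)
    · exact ⟨h1, h2⟩
  · rintro ⟨h1, h2⟩
    exact ⟨h1, Or.inr (Or.inr h2)⟩

theorem R11_of_L {k i : ℕ} (hi : i < (L 11 k).length) : ofMask (L 11 k)[i] ⊆ R11 :=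
  ofMask_subset_R11 (lt_of_mem_L (List.getElem_mem hi))

/-- the upper bits of a correct word of one side miss the mask -/
theorem side_miss {B : Fam} (h : T0 B) {Y : Finset (Fin 13)} (hY : Six B 12 11 Y) {y : ℕ}
    (hy : ofMask y = Y) {T x : ℕ} {p p' : Fin 13} (hsp : Spec p p') (hx : Half T x)
    (hT : link (link B p) p' = fam 11 3 T) (hE : outer B p p' = fam 11 4 (eP x)) {i : ℕ}
    (hi : 330 ≤ i) (hi2 : i < 506) (h1 : x.testBit i = true) : (yF y).testBit i = false := by
  obtain ⟨hb, hn⟩ := hx B p p' h.odd hsp hT hE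
  have hpY : p ∉ Y := by
    rcases hsp with ⟨rfl, -⟩ | ⟨rfl, -⟩
    · exact hY.nx
    · exact hY.nz
  by_contra hc
  rw [Bool.not_eq_false] at hc
  rcases Nat.lt_or_ge i 495 with h2 | h2
  · obtain ⟨n, rfl⟩ := Nat.exists_eq_add_of_le hi
    have hn3 : n < (L 11 3).length := by
      rw [len3]
      omega
    have h3 := hb (ofMask (L 11 3)[n]) (mem_fam_of_testBit hn3 (by
      rw [bP_testBit (by omega)]
      exact h1))
    have hs := R11_of_L hn3
    have hcard : (insert p (ofMask (L 11 3)[n])).card = 4 := by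
      rw [card_insert_of_notMem (hsp.notMem hs),
        ((ofMask_getElem_sub (by norm_num) hn3).2 : (ofMask (L 11 3)[n]).card = 3)]
    have h4 := hY.bad _ hcard h3
    have h5 := yF_triple hn3 hc
    rw [hy] at h5
    rcases inter_special (Y := Y) hsp hs with h6 | h6
    · rw [h6] at h4
      omega
    · exact hpY h6
  · obtain ⟨n, rfl⟩ := Nat.exists_eq_add_of_le h2
    have hn11 : n < 11 := by omega
    have h3 := hn ⟨n, by omega⟩ h1 hn11
    have h4 : MM B ⟨n, by omega⟩ = 8 := by
      refine h.nb _ hn11 ?_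
      rcases hsp with ⟨rfl, -⟩ | ⟨rfl, -⟩
      · exact Or.inl h3
      · exact Or.inr h3
    have h5 : (⟨n, by omega⟩ : Fin 13) ∈ ofMask y := yF_point (u := ⟨n, by omega⟩) hc
    rw [hy] at h5
    have h6 := hY.six _ h5
    omega

/-- the quads in both links miss the mask -/
theorem quad_miss {B : Fam} (h : T0 B) {Y : Finset (Fin 13)} (hY : Six B 12 11 Y) {y : ℕ}
    (hy : ofMask y = Y) {x xr : ℕ} (hE : outer B 11 12 = fam 11 4 (eP x))
    (hR : outer B 12 11 = fam 11 4 (eP xr)) {i : ℕ}
    (hi : i < 330) (h1 : x.testBit i = true) (h2 : xr.testBit i = true) :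
    (yF y).testBit i = false := by
  by_contra hc
  rw [Bool.not_eq_false] at hc
  have hi4 : i < (L 11 4).length := by
    rw [len4]
    exact hi
  have hs := R11_of_L hi4
  have hcard : (ofMask (L 11 4)[i]).card = 4 := (ofMask_getElem_sub (by norm_num) hi4).2
  have h3 : ofMask (L 11 4)[i] ∈ outer B 11 12 := by
    rw [hE]
    exact mem_fam_of_testBit hi4 (by rw [eP_testBit hi]; exact h1)
  have h4 : ofMask (L 11 4)[i] ∈ outer B 12 11 := by
    rw [hR]
    exact mem_fam_of_testBit hi4 (by rw [eP_testBit hi]; exact h2)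
  unfold outer at h3 h4
  rw [mem_filter, mem_link] at h3 h4
  have h5 := yF_quad hi4 hc
  generalize ofMask (L 11 4)[i] = q at *
  have h6 : 2 ≤ cnt B q := by
    unfold cnt
    have h7 : ({insert 11 q, insert 12 q} : Finset (Finset (Fin 13))) ⊆
        B.filter fun b => q ⊆ b := by
      intro b hb
      rw [mem_insert, mem_singleton] at hb
      rw [mem_filter]
      rcases hb with rfl | rfl
      · exact ⟨h3.1.2, subset_insert _ _⟩
      · exact ⟨h4.1.2, subset_insert _ _⟩
    refine le_trans (le_of_eq ?_) (card_le_card h7)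
    rw [card_pair]
    intro h8
    have h9 : (11 : Fin 13) ∈ insert 12 q := h8 ▸ mem_insert_self _ _
    rw [mem_insert] at h9
    rcases h9 with h9 | h9
    · exact absurd h9 (by decide)
    · exact h3.1.1 h9
  have h7 := cnt_quad h.odd hcard
  have h8 := hY.bad q hcard (by omega)
  rw [inter_plain hs, ← hy] at h8
  omega

/-- the four points are below 9 -/
theorem six_lt_nine {B : Fam} {Y : Finset (Fin 13)} (hY : Six B 12 11 Y) {T : ℕ}
    (hT : link (link B 12) 11 = fam 11 3 T) (hb : 2 ≤ cnt (fam 11 3 T) {9, 10}) :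
    ∀ u ∈ Y, u.val < 9 := by
  have h1 : 1 ≤ ex B (insert 12 (insert 11 {9, 10})) := by
    unfold ex
    rw [← cnt_link B (by decide), ← cnt_link (link B 12) (by decide), hT]
    omega
  have h2 := hY.bad _ (by decide) h1
  have h3 : ∀ v ∈ ({9, 10} : Finset (Fin 13)), v ∉ Y := by
    intro v hv hvY
    have h4 : ({12, 11, v} : Finset (Fin 13)) ⊆
        insert 12 (insert 11 {9, 10}) ∩ insert 12 (insert 11 Y) := by
      intro a ha
      rw [mem_insert, mem_insert, mem_singleton] at ha
      rw [mem_inter]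
      rcases ha with rfl | rfl | rfl
      · exact ⟨mem_insert_self _ _, mem_insert_self _ _⟩
      · exact ⟨mem_insert_of_mem (mem_insert_self _ _), mem_insert_of_mem (mem_insert_self _ _)⟩
      · exact ⟨mem_insert_of_mem (mem_insert_of_mem hv),
          mem_insert_of_mem (mem_insert_of_mem hvY)⟩
    have h5 := card_le_card h4
    have h6 : ({12, 11, v} : Finset (Fin 13)).card = 3 := by
      rw [mem_insert, mem_singleton] at hv
      rcases hv with rfl | rfl <;> decide
    omega
  intro u hu
  by_contra h4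
  have h5 : ∀ u : Fin 13, ¬ u.val < 9 → u = 9 ∨ u = 10 ∨ u = 11 ∨ u = 12 := by decide
  rcases h5 u h4 with rfl | rfl | rfl | rfl
  · exact h3 9 (by decide) hu
  · exact h3 10 (by decide) hu
  · exact hY.nz hu
  · exact hY.nx hu

/-- THE FILTER -/
theorem exists_mask {B : Fam} (h : T0 B) {T x xr : ℕ} (hxr : Half T xr) (hx : Half T x)
    (hxl : x < 2 ^ 506) (hxrl : xr < 2 ^ 506)
    (hT : link (link B 12) 11 = fam 11 3 T) (hb : 2 ≤ cnt (fam 11 3 T) {9, 10})
    (hE : outer B 11 12 = fam 11 4 (eP x)) (hR : outer B 12 11 = fam 11 4 (eP xr)) :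
    ∃ F ∈ yTab, Nat.land (Nat.land xr topM) F = 0 ∧ x &&& (Nat.land F (um xr)) = 0 := by
  obtain ⟨Y, hY⟩ := h.six
  obtain ⟨y, -, hy, hF⟩ := exists_y hY.card (six_lt_nine hY hT hb)
  have hT' : link (link B 11) 12 = fam 11 3 T := by rw [link_comm, hT]
  refine ⟨yF y, hF, ?_, ?_⟩
  · show (xr &&& topM) &&& yF y = 0
    refine Nat.eq_of_testBit_eq fun i => ?_
    rw [Nat.testBit_and, Nat.testBit_and, testBit_topM, Nat.zero_testBit]
    by_cases h1 : xr.testBit i = true ∧ (330 ≤ i ∧ i < 506)
    · rw [side_miss h hY hy (Or.inl ⟨rfl, rfl⟩) hxr hT hR h1.2.1 h1.2.2 h1.1, Bool.and_false]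
    · by_cases h2 : xr.testBit i = true
      · rw [decide_eq_false (fun h3 => h1 ⟨h2, h3⟩), Bool.and_false, Bool.false_and]
      · rw [Bool.not_eq_true] at h2
        rw [h2, Bool.false_and, Bool.false_and]
  · show x &&& (yF y &&& (xr ||| topM)) = 0
    refine Nat.eq_of_testBit_eq fun i => ?_
    rw [Nat.testBit_and, Nat.testBit_and, Nat.testBit_or, testBit_topM, Nat.zero_testBit]
    by_cases h1 : x.testBit i = true
    · by_cases h330 : i < 330
      · rw [decide_eq_false (fun h3 => by omega), Bool.or_false]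
        by_cases h2 : xr.testBit i = true
        · rw [quad_miss h hY hy hE hR h330 h1 h2, Bool.false_and, Bool.and_false]
        · rw [Bool.not_eq_true] at h2
          rw [h2, Bool.and_false, Bool.and_false]
      · by_cases h506 : i < 506
        · rw [side_miss h hY hy (Or.inr ⟨rfl, rfl⟩) hx hT' hE (by omega) h506 h1,
            Bool.false_and, Bool.and_false]
        · rw [Nat.testBit_lt_two_pow (lt_of_lt_of_le hxl
            (Nat.pow_le_pow_right (by norm_num) (by omega)))] at h1
          exact absurd h1 Bool.false_ne_true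
    · rw [Bool.not_eq_true] at h1
      rw [h1, Bool.false_and]

end Pool.Agent.Helper30.TY
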